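import Mathlib

/-!
The decomposition of the rational group algebra of a finite commutative group, in terms of functions
on the group.
-/

set_option autoImplicit false

namespace Pool.Agent.U981.DC

section

variable {G : Type} [CommGroup G] [Fintype G]

/-- the vanishing of a rational combination of the values of a character depends only on the kernel
of the character -/
theorem conj_sum {F1 F2 : Type} [Field F1] [CharZero F1] [Field F2] [CharZero F2] (φ : G →* F1)
    (ψ : G →* F2) (hker : ∀ g, φ g = 1 ↔ ψ g = 1) (m : G → ℚ)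
    (h : ∑ g, (m g : F1) * φ g = 0) : ∑ g, (m g : F2) * ψ g = 0 := by
  classical
  obtain ⟨x, hx⟩ := IsCyclic.exists_monoid_generator (α := MonoidHom.range φ.toHomUnits)
  obtain ⟨g0, hg0⟩ := x.2
  have h1 : ∀ g, ∃ k : ℕ, φ g = φ g0 ^ k := by
    intro g
    obtain ⟨k, hk⟩ := hx ⟨φ.toHomUnits g, g, rfl⟩
    refine ⟨k, ?_⟩
    have h2 := congrArg (fun y : MonoidHom.range φ.toHomUnits => ((y : F1ˣ) : F1)) hk
    simp only [SubmonoidClass.coe_pow, Units.val_pow_eq_pow_val, ← hg0,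
      MonoidHom.coe_toHomUnits] at h2
    exact h2.symm
  choose k hk using h1
  have hk2 : ∀ g, ψ g = ψ g0 ^ k g := by
    intro g
    have h2 : φ (g * (g0 ^ k g)⁻¹) = 1 := by
      have h3 : φ (g * (g0 ^ k g)⁻¹) * φ (g0 ^ k g) = φ g := by
        rw [← map_mul, inv_mul_cancel_right]
      have h4 : φ (g0 ^ k g) = φ g := by rw [map_pow, hk g]
      have h5 : φ g ≠ 0 := by
        have h6 : φ g * φ g⁻¹ = 1 := by rw [← map_mul, mul_inv_cancel, map_one]
        exact left_ne_zero_of_mul_eq_one h6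
      rw [h4] at h3
      exact mul_right_cancel₀ h5 (by rw [h3, one_mul])
    have h3 := (hker _).1 h2
    have h4 : ψ (g * (g0 ^ k g)⁻¹) * ψ (g0 ^ k g) = ψ g := by
      rw [← map_mul, inv_mul_cancel_right]
    rw [h3, one_mul, map_pow] at h4
    exact h4.symm
  have hpow : ∀ j : ℕ, φ g0 ^ j = 1 ↔ ψ g0 ^ j = 1 := by
    intro j
    rw [← map_pow, ← map_pow]
    exact hker _
  have hfin : ∃ j : ℕ, 0 < j ∧ φ g0 ^ j = 1 :=
    ⟨Fintype.card G, Fintype.card_pos, by rw [← map_pow, pow_card_eq_one, map_one]⟩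
  obtain ⟨d, hd⟩ : ∃ d, d = orderOf (φ g0) := ⟨_, rfl⟩
  have hd0 : 0 < d := by
    rw [hd]
    obtain ⟨j, hj, hj1⟩ := hfin
    exact orderOf_pos_iff.2 (isOfFinOrder_iff_pow_eq_one.2 ⟨j, hj, hj1⟩)
  have hp1 : IsPrimitiveRoot (φ g0) d := by
    rw [hd]
    exact IsPrimitiveRoot.orderOf _
  have hp2 : IsPrimitiveRoot (ψ g0) d :=
    ⟨(hpow d).1 hp1.pow_eq_one, fun l hl => hp1.dvd_of_pow_eq_one l ((hpow l).2 hl)⟩
  obtain ⟨P, hP⟩ : ∃ P : Polynomial ℚ, P = ∑ g, Polynomial.C (m g) * Polynomial.X ^ k g := ⟨_, rfl⟩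
  have hP1 : Polynomial.aeval (φ g0) P = 0 := by
    rw [hP, map_sum, ← h]
    refine Finset.sum_congr rfl fun g _ => ?_
    rw [map_mul, Polynomial.aeval_C, map_pow, Polynomial.aeval_X, hk g, eq_ratCast]
  have hdvd : minpoly ℚ (φ g0) ∣ P := minpoly.dvd ℚ _ hP1
  rw [← Polynomial.cyclotomic_eq_minpoly_rat hp1 hd0,
    Polynomial.cyclotomic_eq_minpoly_rat hp2 hd0] at hdvd
  have hP2 : Polynomial.aeval (ψ g0) P = 0 := (minpoly.dvd_iff).1 hdvd
  rw [← hP2, hP, map_sum]
  refine Finset.sum_congr rfl fun g _ => ?_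
  rw [map_mul, Polynomial.aeval_C, map_pow, Polynomial.aeval_X, ← hk2 g, eq_ratCast]

open MonoidAlgebra in
open Classical in
/-- **The decomposition of the rational group algebra.** -/
theorem decomposition_rat (G : Type) [CommGroup G] [Fintype G] :
    ∃ (ι : Type) (_ : Fintype ι) (e : ι → G → ℚ) (H : ι → Subgroup G),
      (∀ g, ∑ i, e i g = if g = 1 then 1 else 0) ∧
      (∀ i, ∀ h ∈ H i, ∀ g, e i (h * g) = e i g) ∧
      (∀ i, ∀ H' : Subgroup G, ¬ H' ≤ H i → ∀ g, ∑ h : H', e i (h * g) = 0) ∧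
      (∀ i, ∃ χ : G →* ℂ, ∀ g, χ g = 1 ↔ g ∈ H i) ∧
      ∀ i, ∀ (F : Type) [Field F] [CharZero F] (χ : G →* F), (∀ g, χ g = 1 ↔ g ∈ H i) →
        ∀ m : G → ℚ, ∑ g, (m g : F) * χ g = 0 → ∀ g, ∑ h, e i h * m (h⁻¹ * g) = 0 := by
  have hart : IsArtinianRing (MonoidAlgebra ℚ G) := IsArtinianRing.of_finite ℚ _
  have hfinspec : Finite (MaximalSpectrum (MonoidAlgebra ℚ G)) := inferInstance
  let iFt : Fintype (MaximalSpectrum (MonoidAlgebra ℚ G)) := Fintype.ofFinite _
  have hNZ : NeZero (Nat.card G : ℚ) := ⟨by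
    have : 0 < Nat.card G := Nat.card_pos
    exact_mod_cast this.ne'⟩
  have hss : IsSemisimpleRing (MonoidAlgebra ℚ G) := inferInstance
  have hred : IsReduced (MonoidAlgebra ℚ G) := inferInstance
  obtain ⟨E, hE⟩ : ∃ E, E = IsArtinianRing.equivPi (MonoidAlgebra ℚ G) := ⟨_, rfl⟩
  have hEapp : ∀ x J, E x J = Ideal.Quotient.mk (MaximalSpectrum.asIdeal J) x := by
    intro x J
    rw [hE]
    exact IsArtinianRing.equivPi_apply _ x J
  have hext : ∀ x y : MonoidAlgebra ℚ G, (∀ J : MaximalSpectrum (MonoidAlgebra ℚ G),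
      Ideal.Quotient.mk J.asIdeal x = Ideal.Quotient.mk J.asIdeal y) → x = y := by
    intro x y h
    apply E.injective
    funext J
    rw [hEapp, hEapp, h J]
  obtain ⟨el, hel⟩ : ∃ el : MaximalSpectrum (MonoidAlgebra ℚ G) → MonoidAlgebra ℚ G,
      ∀ I, el I = E.symm (Pi.single I 1) := ⟨_, fun _ => rfl⟩
  have hmk1 : ∀ I : MaximalSpectrum (MonoidAlgebra ℚ G),
      Ideal.Quotient.mk I.asIdeal (el I) = 1 := by
    intro I
    rw [← hEapp, hel, AlgEquiv.apply_symm_apply, Pi.single_eq_same]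
  have hmk0 : ∀ I J : MaximalSpectrum (MonoidAlgebra ℚ G), J ≠ I →
      Ideal.Quotient.mk J.asIdeal (el I) = 0 := by
    intro I J hIJ
    rw [← hEapp, hel, AlgEquiv.apply_symm_apply, Pi.single_eq_of_ne hIJ]
  obtain ⟨φ, hφ⟩ : ∃ φ : ∀ I : MaximalSpectrum (MonoidAlgebra ℚ G),
      G →* MonoidAlgebra ℚ G ⧸ I.asIdeal,
      ∀ I g, φ I g = Ideal.Quotient.mk I.asIdeal (MonoidAlgebra.single g 1) :=
    ⟨fun I => ((Ideal.Quotient.mk I.asIdeal : _ →+* _) : _ →* _).comp (MonoidAlgebra.of ℚ G),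
      fun I g => rfl⟩
  have hsingle : ∀ x : MonoidAlgebra ℚ G,
      x = ∑ g, (x.coeff g) • (MonoidAlgebra.single g (1 : ℚ) : MonoidAlgebra ℚ G) := by
    intro x
    ext g
    rw [MonoidAlgebra.coeff_sum, Finsupp.finsetSum_apply, Finset.sum_eq_single g]
    · simp
    · intro g' _ hne
      simp [hne]
    · simp
  refine ⟨MaximalSpectrum (MonoidAlgebra ℚ G), iFt, fun I => (el I).coeff,
    fun I => (φ I).ker, ?_, ?_, ?_, ?_, ?_⟩
  · intro g
    have h1 : ∑ I, el I = (1 : MonoidAlgebra ℚ G) := by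
      apply hext
      intro J
      rw [map_sum, Finset.sum_eq_single J, hmk1, map_one]
      · intro I _ hI
        exact hmk0 I J (Ne.symm hI)
      · intro h
        exact absurd (Finset.mem_univ J) h
    have h2 := congrArg (fun x : MonoidAlgebra ℚ G => x.coeff g) h1
    simp only [MonoidAlgebra.coeff_sum, Finsupp.finsetSum_apply] at h2
    rw [h2, MonoidAlgebra.one_def, MonoidAlgebra.coeff_single, Finsupp.single_apply]
    simp only [eq_comm]
  · intro I h hh g
    have h1 : MonoidAlgebra.single h⁻¹ (1 : ℚ) * el I = el I := by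
      apply hext
      intro J
      rw [map_mul]
      by_cases hJ : J = I
      · subst hJ
        rw [hmk1, ← hφ, mul_one]
        have h2 : h⁻¹ ∈ (φ J).ker := inv_mem hh
        exact h2
      · rw [hmk0 I J hJ, mul_zero]
    have h2 := congrArg (fun x : MonoidAlgebra ℚ G => x.coeff g) h1
    simp only [MonoidAlgebra.coeff_single_mul_apply, one_mul, inv_inv] at h2
    exact h2
  · intro I H' hH' g
    have h1 : (∑ h : H', MonoidAlgebra.single ((h : G)⁻¹) (1 : ℚ)) * el I = 0 := by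
      apply hext
      intro J
      rw [map_mul]
      by_cases hJ : J = I
      · subst hJ
        rw [hmk1, mul_one, map_sum, map_zero]
        let iF : Field (MonoidAlgebra ℚ G ⧸ J.asIdeal) := by
          have := J.isMaximal
          exact Ideal.Quotient.field _
        have h2 := sum_hom_units_eq_zero ((φ J).comp H'.subtype) (fun h => hH' fun g' hg' => by
          have h3 := congrArg (fun f : H' →* MonoidAlgebra ℚ G ⧸ J.asIdeal => f ⟨g', hg'⟩) h
          exact h3)
        rw [← h2, ← Equiv.sum_comp (Equiv.inv H') (fun h => ((φ J).comp H'.subtype) h)]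
        refine Finset.sum_congr rfl fun h _ => ?_
        rw [MonoidHom.comp_apply, hφ]
        simp
      · rw [hmk0 I J hJ, mul_zero, map_zero]
    have h2 := congrArg (fun x : MonoidAlgebra ℚ G => x.coeff g) h1
    simp only [Finset.sum_mul, MonoidAlgebra.coeff_sum, Finsupp.finsetSum_apply,
      MonoidAlgebra.coeff_single_mul_apply, one_mul, inv_inv] at h2
    exact h2
  · intro I
    have hmax := I.isMaximal
    let iF : Field (MonoidAlgebra ℚ G ⧸ I.asIdeal) := Ideal.Quotient.field _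
    have hfin : Module.Finite ℚ (MonoidAlgebra ℚ G ⧸ I.asIdeal) := inferInstance
    let f : (MonoidAlgebra ℚ G ⧸ I.asIdeal) →ₐ[ℚ] ℂ := IsAlgClosed.lift
    refine ⟨(f : _ →* ℂ).comp (φ I), fun g => ?_⟩
    rw [MonoidHom.mem_ker, MonoidHom.comp_apply]
    constructor
    · intro h
      have h1 : f (φ I g) = f 1 := by
        rw [map_one]
        exact h
      exact f.injective h1
    · intro h
      rw [h, map_one]
  · intro I F _ _ χ hχ m hm g
    have hmax := I.isMaximal
    let iF : Field (MonoidAlgebra ℚ G ⧸ I.asIdeal) := Ideal.Quotient.field _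
    have hchar : CharZero (MonoidAlgebra ℚ G ⧸ I.asIdeal) :=
      charZero_of_injective_algebraMap (algebraMap ℚ _).injective
    obtain ⟨x, hx⟩ : ∃ x : MonoidAlgebra ℚ G,
        x = ∑ g, (m g) • (MonoidAlgebra.single g (1 : ℚ) : MonoidAlgebra ℚ G) := ⟨_, rfl⟩
    have hxm : ∀ g, x.coeff g = m g := by
      intro g
      rw [hx, MonoidAlgebra.coeff_sum, Finsupp.finsetSum_apply, Finset.sum_eq_single g]
      · simp
      · intro g' _ hne
        simp [hne]
      · simp
    have h1 : ∑ g, (m g : MonoidAlgebra ℚ G ⧸ I.asIdeal) * φ I g = 0 :=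
      conj_sum χ (φ I) (fun g => by rw [hχ, MonoidHom.mem_ker]) m hm
    have h2 : Ideal.Quotient.mk I.asIdeal x = 0 := by
      rw [← h1, hx, map_sum]
      refine Finset.sum_congr rfl fun g _ => ?_
      rw [hφ, Algebra.smul_def, map_mul]
      congr 1
      exact eq_ratCast ((Ideal.Quotient.mk I.asIdeal).comp
        (algebraMap ℚ (MonoidAlgebra ℚ G))) (m g)
    have h3 : el I * x = 0 := by
      apply hext
      intro J
      rw [map_mul, map_zero]
      by_cases hJ : J = I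
      · subst hJ
        rw [h2, mul_zero]
      · rw [hmk0 I J hJ, zero_mul]
    have h4 := congrArg (fun x : MonoidAlgebra ℚ G => x.coeff g) h3
    simp only [MonoidAlgebra.coeff_mul_apply_left] at h4
    rw [Finsupp.sum_fintype _ _ (by simp)] at h4
    simp only [hxm] at h4
    exact h4

open Classical in
/-- **The decomposition of the group algebra**, with integral coefficients. -/
theorem decomposition (G : Type) [CommGroup G] [Fintype G] :
    ∃ (N : ℕ) (ι : Type) (_ : Fintype ι) (e : ι → G → ℤ) (H : ι → Subgroup G), 0 < N ∧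
      (∀ g, ∑ i, e i g = if g = 1 then (N : ℤ) else 0) ∧
      (∀ i, ∀ h ∈ H i, ∀ g, e i (h * g) = e i g) ∧
      (∀ i, ∀ H' : Subgroup G, ¬ H' ≤ H i → ∀ g, ∑ h : H', e i (h * g) = 0) ∧
      (∀ i, ∃ χ : G →* ℂ, ∀ g, χ g = 1 ↔ g ∈ H i) ∧
      ∀ i, ∀ (F : Type) [Field F] [CharZero F] (χ : G →* F), (∀ g, χ g = 1 ↔ g ∈ H i) →
        ∀ m : G → ℤ, ∑ g, (m g : F) * χ g = 0 → ∀ g, ∑ h, e i h * m (h⁻¹ * g) = 0 := by
  obtain ⟨ι, hι, e, H, h1, h2, h3, h4, h5⟩ := decomposition_rat G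
  obtain ⟨N, hN, hdiv⟩ : ∃ N : ℕ, 0 < N ∧ ∀ i g, ∃ k : ℤ, (k : ℚ) = N * e i g := by
    refine ⟨∏ p : ι × G, (e p.1 p.2).den, Finset.prod_pos fun p _ => (e p.1 p.2).den_pos,
      fun i g => ?_⟩
    obtain ⟨l, hl⟩ : (e i g).den ∣ ∏ p : ι × G, (e p.1 p.2).den :=
      Finset.dvd_prod_of_mem (fun p : ι × G => (e p.1 p.2).den) (Finset.mem_univ (i, g))
    refine ⟨l * (e i g).num, ?_⟩
    rw [hl]
    push_cast
    rw [← Rat.mul_den_eq_num (e i g)]
    ring
  choose k hk using hdiv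
  have hN0 : (N : ℚ) ≠ 0 := by exact_mod_cast hN.ne'
  refine ⟨N, ι, hι, k, H, hN, fun g => ?_, fun i h hh g => ?_, fun i H' hH' g => ?_, h4,
    fun i F _ _ χ hχ m hm g => ?_⟩
  · have h6 : ((∑ i, k i g : ℤ) : ℚ) = ((if g = 1 then (N : ℤ) else 0 : ℤ) : ℚ) := by
      push_cast
      simp only [hk]
      rw [← Finset.mul_sum, h1 g]
      split_ifs <;> simp
    exact_mod_cast h6
  · have h6 : ((k i (h * g) : ℤ) : ℚ) = (k i g : ℚ) := by rw [hk, hk, h2 i h hh g]
    exact_mod_cast h6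
  · have h6 : ((∑ h : H', k i (h * g) : ℤ) : ℚ) = 0 := by
      push_cast
      simp only [hk]
      rw [← Finset.mul_sum, h3 i H' hH' g, mul_zero]
    exact_mod_cast h6
  · have h6 := h5 i F χ hχ (fun g => (m g : ℚ)) (by
      rw [← hm]
      refine Finset.sum_congr rfl fun g _ => ?_
      rw [Rat.cast_intCast]) g
    have h7 : ((∑ h, k i h * m (h⁻¹ * g) : ℤ) : ℚ) = 0 := by
      push_cast
      simp only [hk]
      rw [← mul_zero (N : ℚ), ← h6, Finset.mul_sum]
      refine Finset.sum_congr rfl fun h _ => ?_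
      ring
    exact_mod_cast h7

end

end Pool.Agent.U981.DC
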