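import Pool.Agent.U981.DC.Defs
import Pool.Agent.U981.DC.Group

/-!
Zero-cycles on the fibres of an abelian covering.
-/

set_option autoImplicit false
set_option linter.overlappingInstances false
set_option linter.unusedSectionVars false

open FF Pool.Agent.W603.LV Pool.Agent.N162.BC Pool.Agent.N141.CV Pool.Agent.N162.PR
  Pool.Agent.W602.GT Pool.Agent.U1.BL

namespace Pool.Agent.U981.DC

section

variable {L K Ω : Type} [Field L] [Field K] [Algebra ℂ L] [Algebra ℂ K] [Algebra L K]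
  [IsScalarTower ℂ L K] [FiniteDimensional L K] [Field Ω] [Algebra ℂ Ω] [IsAlgClosed Ω] {n : ℕ}

theorem trace_eq {q : L →ₐ[ℂ] Ω} {S : Finset (K →ₐ[ℂ] Ω)} (hS : ∀ σ, σ ∈ S ↔ restr L Ω σ = q)
    (c : (K →ₐ[ℂ] Ω) →₀ ℤ) (a : K) : fibreTrace c q a = ∑ σ ∈ S, (c σ : Ω) * σ a := by
  classical
  unfold fibreTrace
  refine Finset.sum_subset (fun σ hσ => ?_) fun σ hσ hn => ?_
  · rw [Finset.mem_filter] at hσ
    exact (hS σ).2 (restr_iff.2 hσ.2)
  · rw [Finset.mem_filter, not_and, Finsupp.mem_support_iff] at hn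
    have h5 : c σ = 0 := by
      by_contra h6
      exact hn h6 (restr_iff.1 ((hS σ).1 hσ))
    rw [h5, Int.cast_zero, zero_mul]

theorem bad_finite (y : Fin n → L) (r : ℕ) (c : (K →ₐ[ℂ] Ω) →₀ ℤ) :
    {q : L →ₐ[ℂ] Ω | ∃ a : K, Seen Ω y r a ∧ fibreTrace c q a ≠ 0}.Finite := by
  classical
  refine (c.support.image (restr L Ω)).finite_toSet.subset ?_
  rintro q ⟨a, -, ha⟩
  rw [Finset.mem_coe, Finset.mem_image]
  by_contra hcon
  push Not at hcon
  apply ha
  unfold fibreTrace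
  refine Finset.sum_eq_zero fun σ hσ => ?_
  rw [Finset.mem_filter] at hσ
  exact absurd (restr_iff.2 hσ.2) (hcon σ hσ.1)

/-- **All traces are zero.** -/
theorem all_good [Algebra.EssFiniteType ℂ K] (hΩ : Algebra.trdeg ℂ Ω = n) {y : Fin n → L}
    (hy : IsTranscendenceBasis ℂ y) {r : ℕ} {c : (K →ₐ[ℂ] Ω) →₀ ℤ} (hc : NullTrace n c)
    (hr : numFibres y r c ≤ r) (a : K) (ha : Seen Ω y r a) (q : L →ₐ[ℂ] Ω) :
    fibreTrace c q a = 0 := by
  classical
  have hL : Algebra.trdeg ℂ L = n := by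
    rw [← hy.cardinalMk_eq_trdeg]
    simp
  have hfin := bad_finite y r c
  obtain ⟨U, hU⟩ : ∃ U, U = hfin.toFinset := ⟨_, rfl⟩
  have hUm : ∀ q, q ∈ U ↔ ∃ a : K, Seen Ω y r a ∧ fibreTrace c q a ≠ 0 := by
    intro q
    rw [hU, Set.Finite.mem_toFinset]
    rfl
  have hUcard : U.card ≤ r := by
    rw [hU, ← Set.ncard_eq_toFinset_card _ hfin]
    exact hr
  choose S hS hcard htrS using fun q : L →ₐ[ℂ] Ω => exists_fib (K' := K) q
  obtain ⟨V, hV, hglob⟩ := ha
  by_cases hq : q ∈ U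
  · rw [trace_eq (hS q)]
    refine relations hL hΩ hy (A := {a}) (V := V) ?_ hV hc S hS U hUcard ?_ a rfl q hq
    · intro a' ha' v hv
      have h0 : a' = a := ha'
      rw [h0]
      exact hglob v hv
    · intro q' hq' a' ha' v hv
      have h0 : a' = a := ha'
      rw [h0]
      have h1 : fibreTrace c q' a = 0 := by
        by_contra h2
        exact hq' ((hUm q').2 ⟨a, ⟨V, hV, hglob⟩, h2⟩)
      rw [← trace_eq (hS q'), h1, mul_zero]
  · by_contra h2
    exact hq ((hUm q).2 ⟨a, ⟨V, hV, hglob⟩, h2⟩)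

/-- **The general theorem.** -/
theorem general [Algebra.EssFiniteType ℂ K] (hΩ : Algebra.trdeg ℂ Ω = n) {y : Fin n → L}
    (hy : IsTranscendenceBasis ℂ y) {r : ℕ} {c : (K →ₐ[ℂ] Ω) →₀ ℤ} (hc : NullTrace n c)
    (hr : numFibres y r c ≤ r)
    (hrel : ∀ (q : L →ₐ[ℂ] Ω) (m : (K →ₐ[ℂ] Ω) →₀ ℤ),
      (∀ a, Seen Ω y r a → fibreTrace m q a = 0) → SumOfPullbacks (Small Ω) m q) :
    ∃ N : ℕ, 0 < N ∧ N • c ∈ Rat K Ω :=
  rat_of_sums (fun _ hM => hM) fun q => hrel q c fun a ha => all_good hΩ hy hc hr a ha q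

/-- translation of a point by an automorphism -/
noncomputable def tw (σ : K →ₐ[ℂ] Ω) (g : K ≃ₐ[L] K) : K →ₐ[ℂ] Ω :=
  σ.comp ((g : K →ₐ[L] K).restrictScalars ℂ)

theorem tw_apply (σ : K →ₐ[ℂ] Ω) (g : K ≃ₐ[L] K) (x : K) : tw σ g x = σ (g x) := rfl

theorem tw_tw (σ : K →ₐ[ℂ] Ω) (g h : K ≃ₐ[L] K) : tw (tw σ g) h = tw σ (g * h) := rfl

theorem tw_one (σ : K →ₐ[ℂ] Ω) : tw σ (1 : K ≃ₐ[L] K) = σ := rfl

theorem restr_tw (σ : K →ₐ[ℂ] Ω) (g : K ≃ₐ[L] K) : restr L Ω (tw σ g) = restr L Ω σ := by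
  ext b
  rw [restr_apply, restr_apply, tw_apply, AlgEquiv.commutes]

theorem tw_inj (σ : K →ₐ[ℂ] Ω) {g h : K ≃ₐ[L] K} (hgh : tw σ g = tw σ h) : g = h := by
  ext x
  have h1 := congrArg (fun f : K →ₐ[ℂ] Ω => f x) hgh
  exact σ.injective h1

/-- the Galois group acts transitively on the fibres -/
theorem tw_trans [IsGalois L K] {σ τ : K →ₐ[ℂ] Ω} (h : restr L Ω τ = restr L Ω σ) :
    ∃ g : K ≃ₐ[L] K, τ = tw σ g := by
  classical
  obtain ⟨S, hS, hcard, -⟩ := exists_fib (K' := K) (restr L Ω σ)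
  have h1 : Finset.univ.image (fun g : K ≃ₐ[L] K => tw σ g) = S := by
    refine Finset.eq_of_subset_of_card_le (fun ρ hρ => ?_) ?_
    · obtain ⟨g, -, rfl⟩ := Finset.mem_image.1 hρ
      exact (hS _).2 (restr_tw σ g)
    · rw [hcard, Finset.card_image_of_injective _ (fun g h hgh => tw_inj σ hgh),
        Finset.card_univ, ← Nat.card_eq_fintype_card, IsGalois.card_aut_eq_finrank]
  have h2 : τ ∈ S := (hS τ).2 h
  rw [← h1] at h2
  obtain ⟨g, -, hg⟩ := Finset.mem_image.1 h2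
  exact ⟨g, hg.symm⟩

/-- the fibres over intermediate coverings -/
theorem tw_trans' [IsGalois L K] {M : IntermediateField L K} {σ τ : K →ₐ[ℂ] Ω}
    (h : restr M Ω τ = restr M Ω σ) : ∃ g ∈ M.fixingSubgroup, τ = tw σ g := by
  have h1 : ∀ a ∈ M, τ a = σ a := fun a ha => by
    have h2 := congrArg (fun f : M →ₐ[ℂ] Ω => f ⟨a, ha⟩) h
    exact h2
  obtain ⟨g, rfl⟩ := tw_trans (L := L) (σ := σ) (τ := τ) (by
    ext b
    rw [restr_apply, restr_apply]
    exact h1 _ (M.algebraMap_mem b))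
  refine ⟨g, ?_, rfl⟩
  rw [IntermediateField.mem_fixingSubgroup_iff]
  intro a ha
  have h2 := h1 a ha
  rw [tw_apply] at h2
  exact σ.injective h2

/-- the trace on a fibre of a Galois covering -/
theorem trace_galois [IsGalois L K] (c : (K →ₐ[ℂ] Ω) →₀ ℤ) (σ : K →ₐ[ℂ] Ω) (a : K) :
    fibreTrace c (restr L Ω σ) a = ∑ g : K ≃ₐ[L] K, (c (tw σ g) : Ω) * σ (g a) := by
  classical
  obtain ⟨S, hS, hcard, -⟩ := exists_fib (K' := K) (restr L Ω σ)
  rw [trace_eq hS]
  symm
  refine Finset.sum_bij (fun g _ => tw σ g) (fun g _ => (hS _).2 (restr_tw σ g))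
    (fun g _ h _ hgh => tw_inj σ hgh) (fun τ hτ => ?_) fun g _ => rfl
  obtain ⟨g, hg⟩ := tw_trans ((hS τ).1 hτ)
  exact ⟨g, Finset.mem_univ _, hg.symm⟩

/-- a Kummer element with a given character -/
theorem exists_kummer (χ : (K ≃ₐ[L] K) →* ℂ) :
    ∃ b : K, b ≠ 0 ∧ ∀ g : K ≃ₐ[L] K, g b = algebraMap ℂ K (χ g) * b := by
  classical
  have hχ : ∀ g, χ g * χ g⁻¹ = 1 := fun g => by rw [← map_mul, mul_inv_cancel, map_one]
  have hli := linearIndependent_monoidHom K K
  obtain ⟨x, hx⟩ : ∃ x : K, ∑ g : K ≃ₐ[L] K, algebraMap ℂ K (χ g⁻¹) * g x ≠ 0 := by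
    by_contra hcon
    push Not at hcon
    have h1 : ∑ g : K ≃ₐ[L] K, algebraMap ℂ K (χ g⁻¹) •
        ((fun f : K →* K => (f : K → K)) ((g : K →+* K) : K →* K)) = 0 := by
      funext x
      rw [Finset.sum_apply, Pi.zero_apply, ← hcon x]
      rfl
    have h2 := (hli.comp (fun g : K ≃ₐ[L] K => ((g : K →+* K) : K →* K)) (fun g h hgh => by
      ext x
      have h3 := congrArg (fun f : K →* K => f x) hgh
      exact h3))
    rw [Fintype.linearIndependent_iff] at h2
    have h3 := h2 (fun g => algebraMap ℂ K (χ g⁻¹)) h1 1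
    rw [inv_one, map_one, map_one] at h3
    exact one_ne_zero h3
  refine ⟨_, hx, fun g => ?_⟩
  rw [map_sum, Finset.mul_sum, ← Equiv.sum_comp (Equiv.mulLeft g)
    (fun h => algebraMap ℂ K (χ g) * (algebraMap ℂ K (χ h⁻¹) * h x))]
  refine Finset.sum_congr rfl fun h _ => ?_
  simp only [Equiv.coe_mulLeft]
  have h1 : g (algebraMap ℂ K (χ h⁻¹)) = algebraMap ℂ K (χ h⁻¹) := by
    rw [IsScalarTower.algebraMap_apply ℂ L K, AlgEquiv.commutes]
  have h2 : χ g * χ (h⁻¹ * g⁻¹) = χ h⁻¹ := by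
    rw [map_mul, mul_comm (χ h⁻¹), ← mul_assoc, hχ, one_mul]
  rw [mul_inv_rev, ← mul_assoc, ← map_mul (algebraMap ℂ K), h2, map_mul g, h1]
  rfl

/-- Kummer elements and intermediate coverings -/
theorem kummer_of_char [IsGalois L K] {H : Subgroup (K ≃ₐ[L] K)} (χ : (K ≃ₐ[L] K) →* ℂ)
    (hχ : ∀ g, χ g = 1 ↔ g ∈ H) {b : K} (hb : b ≠ 0)
    (hgb : ∀ g : K ≃ₐ[L] K, g b = algebraMap ℂ K (χ g) * b) :
    IsKummer (IntermediateField.fixedField H) b := by
  classical
  refine ⟨hb, ⟨Fintype.card (K ≃ₐ[L] K), Fintype.card_pos, ?_⟩, ?_⟩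
  · rw [IsGalois.mem_range_algebraMap_iff_fixed]
    intro g
    rw [map_pow, hgb, mul_pow, ← map_pow, ← map_pow, pow_card_eq_one, map_one, map_one, one_mul]
  · rw [← IsGalois.fixedField_fixingSubgroup (IntermediateField.adjoin L {b})]
    congr 1
    ext g
    rw [← hχ, IntermediateField.mem_fixingSubgroup_iff]
    constructor
    · intro h
      have h1 := h b (IntermediateField.mem_adjoin_simple_self L b)
      rw [hgb] at h1
      have h2 : algebraMap ℂ K (χ g) = 1 := mul_right_cancel₀ hb (by rw [h1, one_mul])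
      exact (algebraMap ℂ K).injective (by rw [h2, map_one])
    · intro h
      have h1 : IntermediateField.adjoin L {b} ≤
          IntermediateField.fixedField (Subgroup.zpowers g) := by
        rw [IntermediateField.adjoin_le_iff, Set.singleton_subset_iff, SetLike.mem_coe,
          IntermediateField.mem_fixedField_iff]
        have h2 : g b = b := by rw [hgb, h, map_one, one_mul]
        intro g' hg'
        rw [Subgroup.mem_zpowers_iff] at hg'
        obtain ⟨k, rfl⟩ := hg'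
        have h3 : g ∈ MulAction.stabilizer (K ≃ₐ[L] K) b := h2
        exact (MulAction.stabilizer (K ≃ₐ[L] K) b).zpow_mem h3 k
      intro x hx
      exact (IntermediateField.mem_fixedField_iff _ x).1 (h1 hx) g (Subgroup.mem_zpowers g)

/-- the character of a Kummer element -/
theorem char_of_kummer [IsGalois L K] {H : Subgroup (K ≃ₐ[L] K)} {a : K}
    (ha : IsKummer (IntermediateField.fixedField H) a) : ∃ χ : (K ≃ₐ[L] K) →* ℂ,
      (∀ g, g a = algebraMap ℂ K (χ g) * a) ∧ ∀ g, χ g = 1 ↔ g ∈ H := by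
  classical
  obtain ⟨ha0, ⟨m, hm, l, hl⟩, hadj⟩ := ha
  have h1 : ∀ g : K ≃ₐ[L] K, ∃ z : ℂ, g a = algebraMap ℂ K z * a := by
    intro g
    have h2 : (g a / a) ^ m = 1 := by
      rw [div_pow, ← map_pow, ← hl, AlgEquiv.commutes, hl, div_self (pow_ne_zero m ha0)]
    have h3 : IsIntegral ℂ (g a / a) := by
      refine ⟨Polynomial.X ^ m - 1, Polynomial.monic_X_pow_sub_C 1 hm.ne', ?_⟩
      simp [h2]
    obtain ⟨z, hz⟩ : g a / a ∈ (algebraMap ℂ K).range := by
      have h4 := IsAlgClosed.splits (minpoly ℂ (g a / a))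
      exact minpoly.mem_range_of_degree_eq_one ℂ _
        (IsAlgClosed.degree_eq_one_of_irreducible ℂ (minpoly.irreducible h3))
    refine ⟨z, ?_⟩
    rw [hz, div_mul_cancel₀ _ ha0]
  choose f hf using h1
  refine ⟨{ toFun := f, map_one' := ?_, map_mul' := fun g h => ?_ }, hf, fun g => ?_⟩
  · apply (algebraMap ℂ K).injective
    have h2 := hf 1
    rw [AlgEquiv.one_apply] at h2
    rw [map_one]
    exact mul_right_cancel₀ ha0 (by rw [← h2, one_mul])
  · apply (algebraMap ℂ K).injective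
    apply mul_right_cancel₀ ha0
    rw [← hf, AlgEquiv.mul_apply, hf h, map_mul, map_mul]
    have h1 : g (algebraMap ℂ K (f h)) = algebraMap ℂ K (f h) := by
      rw [IsScalarTower.algebraMap_apply ℂ L K, AlgEquiv.commutes]
    rw [h1, hf g]
    ring
  · change f g = 1 ↔ g ∈ H
    have h2 : f g = 1 ↔ g a = a := by
      rw [hf]
      constructor
      · intro h
        rw [h, map_one, one_mul]
      · intro h
        have h3 : algebraMap ℂ K (f g) = 1 := mul_right_cancel₀ ha0 (by rw [h, one_mul])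
        exact (algebraMap ℂ K).injective (by rw [h3, map_one])
    rw [h2]
    constructor
    · intro h
      rw [← IntermediateField.fixingSubgroup_fixedField H, ← hadj,
        IntermediateField.mem_fixingSubgroup_iff]
      have h1 : IntermediateField.adjoin L {a} ≤
          IntermediateField.fixedField (Subgroup.zpowers g) := by
        rw [IntermediateField.adjoin_le_iff, Set.singleton_subset_iff, SetLike.mem_coe,
          IntermediateField.mem_fixedField_iff]
        intro g' hg'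
        rw [Subgroup.mem_zpowers_iff] at hg'
        obtain ⟨k, rfl⟩ := hg'
        have h3 : g ∈ MulAction.stabilizer (K ≃ₐ[L] K) a := h
        exact (MulAction.stabilizer (K ≃ₐ[L] K) a).zpow_mem h3 k
      intro x hx
      exact (IntermediateField.mem_fixedField_iff _ x).1 (h1 hx) g (Subgroup.mem_zpowers g)
    · intro h
      have h3 : a ∈ IntermediateField.fixedField H := by
        rw [← hadj]
        exact IntermediateField.mem_adjoin_simple_self L a
      exact (IntermediateField.mem_fixedField_iff _ a).1 h3 g h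

end

end Pool.Agent.U981.DC
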