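import Pool.Agent.U981.DC.Abel

/-!
Zero-cycles on the fibres of an abelian covering: the decomposition.
-/

set_option autoImplicit false
set_option linter.overlappingInstances false
set_option linter.unusedSectionVars false

open FF Pool.Agent.W603.LV Pool.Agent.N162.BC Pool.Agent.N141.CV Pool.Agent.N162.PR
  Pool.Agent.W602.GT Pool.Agent.U1.BL

namespace Pool.Agent.U981.DC

section

variable {L K Ω : Type} [Field L] [Field K] [Algebra ℂ L] [Algebra ℂ K] [Algebra L K]
  [IsScalarTower ℂ L K] [FiniteDimensional L K] [Field Ω] [Algebra ℂ Ω] [IsAlgClosed Ω] {n : ℕ}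

/-- the convolution of the cycle `c` with the function `e` on the Galois group -/
noncomputable def conv (e : (K ≃ₐ[L] K) → ℤ) (c : (K →ₐ[ℂ] Ω) →₀ ℤ) : (K →ₐ[ℂ] Ω) →₀ ℤ :=
  ∑ g, e g • c.mapDomain (fun σ => tw σ g)

theorem map_tw (c : (K →ₐ[ℂ] Ω) →₀ ℤ) (g : K ≃ₐ[L] K) (σ : K →ₐ[ℂ] Ω) :
    (c.mapDomain (fun σ => tw σ g)) σ = c (tw σ g⁻¹) := by
  have h1 : σ = tw (tw σ g⁻¹) g := by rw [tw_tw, inv_mul_cancel, tw_one]
  have h2 : Function.Injective (fun σ : K →ₐ[ℂ] Ω => tw σ g) := by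
    intro a b hab
    have h3 : tw (tw a g) g⁻¹ = tw (tw b g) g⁻¹ := congrArg (fun s => tw s g⁻¹) hab
    rwa [tw_tw, tw_tw, mul_inv_cancel, tw_one, tw_one] at h3
  conv_lhs => rw [h1]
  exact Finsupp.mapDomain_apply h2 c (tw σ g⁻¹)

theorem conv_apply (e : (K ≃ₐ[L] K) → ℤ) (c : (K →ₐ[ℂ] Ω) →₀ ℤ) (σ : K →ₐ[ℂ] Ω) :
    conv e c σ = ∑ g, e g * c (tw σ g⁻¹) := by
  unfold conv
  rw [Finsupp.finsetSum_apply]
  refine Finset.sum_congr rfl fun g _ => ?_
  rw [Finsupp.smul_apply, map_tw, smul_eq_mul]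

/-- invariance of the convolution -/
theorem conv_inv (hcomm : ∀ g h : K ≃ₐ[L] K, g * h = h * g) {e : (K ≃ₐ[L] K) → ℤ}
    {H : Subgroup (K ≃ₐ[L] K)} (he : ∀ h ∈ H, ∀ g, e (h * g) = e g) (c : (K →ₐ[ℂ] Ω) →₀ ℤ)
    (σ : K →ₐ[ℂ] Ω) {h : K ≃ₐ[L] K} (hh : h ∈ H) : conv e c (tw σ h) = conv e c σ := by
  rw [conv_apply, conv_apply, ← Equiv.sum_comp (Equiv.mulLeft h)
    (fun g => e g * c (tw (tw σ h) g⁻¹))]
  refine Finset.sum_congr rfl fun g _ => ?_
  simp only [Equiv.coe_mulLeft]
  rw [he h hh, tw_tw, mul_inv_rev, hcomm g⁻¹ h⁻¹, mul_inv_cancel_left]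

/-- the images of the convolution on smaller coverings are zero -/
theorem conv_push (hcomm : ∀ g h : K ≃ₐ[L] K, g * h = h * g) {e : (K ≃ₐ[L] K) → ℤ}
    (M' : IntermediateField L K) {S : Finset (K ≃ₐ[L] K)}
    (hS : ∀ h ∈ S, h ∈ M'.fixingSubgroup) (hS0 : S.Nonempty)
    (he : ∀ g, ∑ h ∈ S, e (h * g) = 0) (c : (K →ₐ[ℂ] Ω) →₀ ℤ) :
    (conv e c).mapDomain (restr M' Ω) = 0 := by
  classical
  obtain ⟨P, hP⟩ : ∃ P : (K ≃ₐ[L] K) → ((M' →ₐ[ℂ] Ω) →₀ ℤ),
      ∀ g, P g = c.mapDomain (fun σ => restr M' Ω (tw σ g)) := ⟨_, fun _ => rfl⟩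
  have h1 : (conv e c).mapDomain (restr M' Ω) = ∑ g, e g • P g := by
    unfold conv
    rw [Finsupp.mapDomain_finsetSum]
    refine Finset.sum_congr rfl fun g _ => ?_
    rw [Finsupp.mapDomain_smul, hP, ← Finsupp.mapDomain_comp]
    rfl
  have h2 : ∀ h ∈ S, ∀ g, P (h * g) = P g := by
    intro h hh g
    rw [hP, hP]
    congr 1
    funext σ
    ext x
    rw [restr_apply, restr_apply, tw_apply, tw_apply, hcomm h g, AlgEquiv.mul_apply]
    congr 2
    exact (IntermediateField.mem_fixingSubgroup_iff _ _).1 (hS h hh) x x.2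
  have h3 : (S.card : ℤ) • (∑ g, e g • P g) = 0 := by
    have h4 : ∀ h ∈ S, ∑ g, e g • P g = ∑ g, e (h * g) • P g := by
      intro h hh
      rw [← Equiv.sum_comp (Equiv.mulLeft h) (fun g => e g • P g)]
      refine Finset.sum_congr rfl fun g _ => ?_
      simp only [Equiv.coe_mulLeft]
      rw [h2 h hh]
    have h5 : (S.card : ℤ) • (∑ g, e g • P g) = ∑ h ∈ S, ∑ g, e (h * g) • P g := by
      rw [← Finset.sum_congr rfl h4, Finset.sum_const, natCast_zsmul]
    rw [h5, Finset.sum_comm]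
    refine Finset.sum_eq_zero fun g _ => ?_
    rw [← Finset.sum_smul, he g, zero_smul]
  rw [h1]
  exact (smul_eq_zero.1 h3).resolve_left (by
    have := Finset.card_pos.2 hS0
    exact_mod_cast this.ne')

/-- a cycle which is constant on the fibres of `T → T'` is, up to torsion, rationally equivalent to a
cycle on fixed divisors, if this holds for its image on `T'` -/
theorem rat_of_push {M : IntermediateField L K} {D : (K →ₐ[ℂ] Ω) →₀ ℤ}
    (hD : ∀ σ τ : K →ₐ[ℂ] Ω, restr M Ω σ = restr M Ω τ → D σ = D τ) {N : ℕ} (hN : 0 < N)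
    (h : N • D.mapDomain (restr M Ω) ∈ Rat M Ω) : ∃ N' : ℕ, 0 < N' ∧ N' • D ∈ Rat K Ω := by
  classical
  obtain ⟨c1, hc1, -⟩ := exists_lift_cycle (K' := K) (N • D.mapDomain (restr M Ω))
  have hrat1 : c1 ∈ Rat K Ω := rat_pull h c1 hc1
  refine ⟨N * Module.finrank M K, Nat.mul_pos hN Module.finrank_pos, ?_⟩
  have h1 : (N * Module.finrank M K) • D = c1 := by
    ext σ
    obtain ⟨S, hS, hcard, -⟩ := exists_fib (K' := K) (restr M Ω σ)
    have h2 : (D.mapDomain (restr M Ω)) (restr M Ω σ) = ∑ τ ∈ S, D τ := by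
      rw [Finsupp.mapDomain, Finsupp.sum_apply, Finsupp.sum]
      have h3 : ∑ τ ∈ S, D τ = ∑ τ ∈ D.support.filter (fun τ => restr M Ω τ = restr M Ω σ),
          D τ := by
        symm
        refine Finset.sum_subset (fun τ hτ => ?_) fun τ hτ hn => ?_
        · rw [Finset.mem_filter] at hτ
          exact (hS τ).2 hτ.2
        · rw [Finset.mem_filter, not_and, Finsupp.mem_support_iff] at hn
          by_contra h6
          exact hn h6 ((hS τ).1 hτ)
      rw [h3, Finset.sum_filter]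
      refine Finset.sum_congr rfl fun τ _ => ?_
      rw [Finsupp.single_apply]
    rw [Finsupp.smul_apply, hc1, Finsupp.smul_apply, h2, Finset.sum_congr rfl (fun τ hτ =>
      hD τ σ ((hS τ).1 hτ)), Finset.sum_const, hcard, nsmul_eq_mul, nsmul_eq_mul, nsmul_eq_mul]
    push_cast
    ring
  rw [h1]
  exact hrat1

theorem restrTo_restr {M' M : IntermediateField L K} (h : M' ≤ M) (σ : K →ₐ[ℂ] Ω) :
    restrTo h (restr M Ω σ) = restr M' Ω σ := by
  ext x
  rfl

/-- **Abelian coverings.** -/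
theorem abelian [IsGalois L K] (hcomm : ∀ g h : K ≃ₐ[L] K, g * h = h * g)
    {P : K → Prop} {c : (K →ₐ[ℂ] Ω) →₀ ℤ}
    (hgood : ∀ a, P a → ∀ q : L →ₐ[ℂ] Ω, fibreTrace c q a = 0)
    (hM : ∀ M : IntermediateField L K, (∃ a, IsKummer M a) →
      (∃ a, IsKummer M a ∧ P a) ∨ NewSmall Ω M) : ∃ N : ℕ, 0 < N ∧ N • c ∈ Rat K Ω := by
  classical
  have hcΩ : CharZero Ω := charZero_of_injective_algebraMap (algebraMap ℂ Ω).injective
  let iG : CommGroup (K ≃ₐ[L] K) := { (inferInstance : Group (K ≃ₐ[L] K)) with mul_comm := hcomm }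
  obtain ⟨N, ι, iι, e, H, hN, h1, h2, h3, h4, h5⟩ := decomposition (K ≃ₐ[L] K)
  have hsum : ∑ i, conv (e i) c = N • c := by
    ext σ
    rw [Finsupp.finsetSum_apply, Finsupp.smul_apply]
    simp only [conv_apply]
    rw [Finset.sum_comm]
    have h6 : ∀ g : K ≃ₐ[L] K, ∑ i, e i g * c (tw σ g⁻¹) =
        if g = 1 then (N : ℤ) * c σ else 0 := by
      intro g
      rw [← Finset.sum_mul, h1 g]
      split_ifs with h
      · rw [h, inv_one, tw_one]
      · rw [zero_mul]
    rw [Finset.sum_congr rfl (fun g _ => h6 g), Finset.sum_ite_eq' Finset.univ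
      (1 : K ≃ₐ[L] K), if_pos (Finset.mem_univ _), nsmul_eq_mul]
  have hpart : ∀ i, ∃ N' : ℕ, 0 < N' ∧ N' • conv (e i) c ∈ Rat K Ω := by
    intro i
    obtain ⟨χ, hχ⟩ := h4 i
    obtain ⟨b, hb, hgb⟩ := exists_kummer (L := L) (K := K) χ
    rcases hM _ ⟨b, kummer_of_char χ hχ hb hgb⟩ with ⟨a, ha, hPa⟩ | hnew
    · -- a seen part is zero
      refine ⟨1, one_pos, ?_⟩
      have h6 : conv (e i) c = 0 := by
        obtain ⟨χ', hga, hχ'⟩ := char_of_kummer ha
        ext σ
        rw [conv_apply, Finsupp.zero_apply]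
        have h7 := h5 i Ω (((algebraMap ℂ Ω : ℂ →+* Ω) : ℂ →* Ω).comp χ') (fun g => by
          rw [← hχ' g, MonoidHom.comp_apply]
          constructor
          · intro h
            exact (algebraMap ℂ Ω).injective (h.trans (map_one _).symm)
          · intro h
            rw [h, map_one]) (fun g => c (tw σ g)) (by
          have h8 := hgood a hPa (restr L Ω σ)
          rw [trace_galois] at h8
          have h9 : σ a ≠ 0 := (map_ne_zero σ).2 ha.1
          apply mul_right_cancel₀ h9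
          rw [zero_mul, ← h8, Finset.sum_mul]
          refine Finset.sum_congr rfl fun g _ => ?_
          rw [hga g, map_mul, AlgHom.commutes, mul_assoc]
          rfl) 1
        rw [← h7]
        refine Finset.sum_congr rfl fun g _ => ?_
        rw [mul_one]
      rw [h6, smul_zero]
      exact zero_mem _
    · -- the other parts are new
      obtain ⟨M, hMdef⟩ : ∃ M, M = IntermediateField.fixedField (H i) := ⟨_, rfl⟩
      rw [← hMdef] at hnew
      have hnewz : IsNew ((conv (e i) c).mapDomain (restr M Ω)) := by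
        intro M' hM'
        rw [← Finsupp.mapDomain_comp]
        have h6 : restrTo hM'.le ∘ restr M Ω = restr (K' := K) M' Ω := by
          funext σ
          exact restrTo_restr hM'.le σ
        rw [h6]
        have h7 : ¬ M'.fixingSubgroup ≤ H i := by
          intro h8
          have h9 : M ≤ M' := by
            rw [hMdef, ← IsGalois.fixedField_fixingSubgroup M']
            exact IntermediateField.fixedField_antitone h8
          exact absurd hM' (not_lt_of_ge h9)
        refine conv_push hcomm M' (S := Finset.univ.filter fun g => g ∈ M'.fixingSubgroup)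
          (fun h hh => (Finset.mem_filter.1 hh).2) ⟨1, by simp⟩ (fun g => ?_) c
        rw [← h3 i M'.fixingSubgroup h7 g]
        symm
        refine Finset.sum_bij (fun (h : M'.fixingSubgroup) _ => (h : K ≃ₐ[L] K)) ?_ ?_ ?_ ?_
        · intro h _
          rw [Finset.mem_filter]
          exact ⟨Finset.mem_univ _, h.2⟩
        · intro h _ h' _ hh
          exact Subtype.ext hh
        · intro h hh
          exact ⟨⟨h, (Finset.mem_filter.1 hh).2⟩, Finset.mem_univ _, rfl⟩
        · intro h _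
          rfl
      obtain ⟨N', hN', hrat⟩ := hnew _ hnewz
      refine rat_of_push (fun σ τ hστ => ?_) hN' hrat
      obtain ⟨g, hg, rfl⟩ := tw_trans' hστ
      rw [hMdef, IntermediateField.fixingSubgroup_fixedField] at hg
      exact conv_inv hcomm (h2 i) c τ hg
  choose N' hN' hrat using hpart
  refine ⟨(∏ i, N' i) * N, Nat.mul_pos (Finset.prod_pos fun i _ => hN' i) hN, ?_⟩
  rw [mul_smul, ← hsum, Finset.smul_sum]
  refine sum_mem fun i _ => ?_
  rw [← Finset.mul_prod_erase Finset.univ N' (Finset.mem_univ i), mul_comm, mul_smul]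
  exact AddSubgroup.nsmul_mem _ (hrat i) _

end

end Pool.Agent.U981.DC
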