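import Pool.Agent.U981.DC.Abel2
import Pool.Agent.R882.ZD

/-!
Zero-cycles on the fibres of an abelian covering: the criterion.
-/

set_option autoImplicit false
set_option linter.overlappingInstances false
set_option linter.unusedSectionVars false

open FF Pool.Agent.W603.LV Pool.Agent.N162.BC Pool.Agent.N141.CV Pool.Agent.N162.PR
  Pool.Agent.W602.GT Pool.Agent.U1.BL

namespace Pool.Agent.U981.DC

section

/-- enough characters -/
theorem dual_sum (G : Type) [CommGroup G] [Fintype G] : ∃ (ι : Type) (_ : Fintype ι)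
    (X : ι → (G →* ℂ)) (N : ℕ), 0 < N ∧ (∀ g, g ≠ 1 → ∑ i, X i g = 0) ∧ ∑ i, X i 1 = N := by
  classical
  have hE : NeZero (Monoid.exponent G) := ⟨Monoid.exponent_ne_zero_of_finite⟩
  obtain ⟨eqv⟩ := CommGroup.monoidHom_mulEquiv_of_hasEnoughRootsOfUnity G ℂ
  let iF : Fintype (G →* ℂˣ) := Fintype.ofEquiv G eqv.symm.toEquiv
  refine ⟨G →* ℂˣ, iF, fun χ => (Units.coeHom ℂ).comp χ, Fintype.card (G →* ℂˣ),
    Fintype.card_pos, fun g hg => ?_, ?_⟩
  · obtain ⟨χ0, hχ0⟩ := CommGroup.exists_apply_ne_one_of_hasEnoughRootsOfUnity G ℂ hg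
    have h1 : ∑ χ : G →* ℂˣ, ((Units.coeHom ℂ).comp χ) g =
        (χ0 g : ℂ) * ∑ χ : G →* ℂˣ, ((Units.coeHom ℂ).comp χ) g := by
      conv_lhs => rw [← Equiv.sum_comp (Equiv.mulLeft χ0)]
      rw [Finset.mul_sum]
      refine Finset.sum_congr rfl fun χ _ => ?_
      simp
    have h2 : ((χ0 g : ℂ) - 1) * ∑ χ : G →* ℂˣ, ((Units.coeHom ℂ).comp χ) g = 0 := by
      linear_combination -h1
    refine (mul_eq_zero.1 h2).resolve_left fun h3 => hχ0 ?_
    apply Units.ext
    rw [Units.val_one]
    exact sub_eq_zero.1 h3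
  · simp

end

section

variable {E1 K : Type} [Field E1] [Algebra ℂ E1] [Field K] [Algebra ℂ K] {n : ℕ}

/-- images of global forms under isomorphisms -/
theorem pull_iso [Algebra.EssFiniteType ℂ E1] (φ : E1 →ₐ[ℂ] K) (hφ : Function.Surjective φ)
    (hn : Algebra.trdeg ℂ E1 = (n : ℕ)) {z : Fin n → E1} (hz : IsTranscendenceBasis ℂ z) {w : E1}
    (h : GlobalForm n (stdForm z w)) : GlobalForm n (stdForm (fun i => φ (z i)) (φ w)) := by
  let iA : Algebra E1 K := φ.toRingHom.toAlgebra
  have iT : IsScalarTower ℂ E1 K := IsScalarTower.of_algebraMap_eq fun x => (φ.commutes x).symm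
  have iF : FiniteDimensional E1 K :=
    Module.Finite.of_surjective (Algebra.linearMap E1 K) hφ
  choose F hF using fun i : Fin n => Pool.Agent.W602.GT.exists_der z hz
    fun j => if i = j then (1 : E1) else 0
  have h1 : Pool.Agent.R882.LT.pull (G := K) z F (stdForm z w) =
      stdForm (fun i => φ (z i)) (φ w) := by
    funext D
    unfold Pool.Agent.R882.LT.pull
    rw [stdForm_dual _ _ hF]
    unfold stdForm
    rw [mul_comm]
    rfl
  refine ⟨stdForm_pluri _ _, fun Q hQ => ?_⟩
  rw [← h1]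
  exact Pool.Agent.R882.ZC.pull_regular hn hz hF h.1 h.2 Q hQ

/-- linear combinations of global forms -/
theorem sum_global {z : Fin n → K} {ι : Type} (s : Finset ι) (l : ι → ℂ) (w : ι → K)
    (h : ∀ i, GlobalForm n (stdForm z (w i))) :
    GlobalForm n (stdForm z (∑ i ∈ s, algebraMap ℂ K (l i) * w i)) := by
  have h1 : stdForm z (∑ i ∈ s, algebraMap ℂ K (l i) * w i) =
      fun D => ∑ i ∈ s, algebraMap ℂ K (l i) * stdForm z (w i) D := by
    funext D
    unfold stdForm
    rw [Finset.sum_mul]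
    refine Finset.sum_congr rfl fun i _ => ?_
    ring
  refine ⟨stdForm_pluri _ _, fun P hP => ?_⟩
  rw [h1]
  exact reg_sum s (fun i => (h i).2 P hP) fun i => P.reg_const _

end

section

variable {L K Ω : Type} [Field L] [Field K] [Algebra ℂ L] [Algebra ℂ K] [Algebra L K]
  [IsScalarTower ℂ L K] [FiniteDimensional L K] [Field Ω] [Algebra ℂ Ω] [IsAlgClosed Ω] {n : ℕ}

/-- the null trace from the traces on the fibres -/
theorem null_of_traces [Algebra.EssFiniteType ℂ K] {y : Fin n → L}
    (hy : IsTranscendenceBasis ℂ y) {c : (K →ₐ[ℂ] Ω) →₀ ℤ}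
    (h : ∀ a : K, GlobalForm n (stdForm (fun i => algebraMap L K (y i)) a) →
      ∀ q : L →ₐ[ℂ] Ω, fibreTrace c q a = 0) : NullTrace n c := by
  classical
  intro ω hω z E hz hE D
  have hL : Algebra.trdeg ℂ L = n := by
    rw [← hy.cardinalMk_eq_trdeg]
    simp
  choose F hF using fun i : Fin n => Pool.Agent.W602.GT.exists_der y hy
    fun j => if i = j then (1 : L) else 0
  choose F' hF' using fun i => Pool.Agent.Y172.exists_lift (k := ℂ) (K := L) (L := K) hL (F i)
  have hFK := Pool.Agent.Y172.lift_dual hF hF'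
  have hyK : IsTranscendenceBasis ℂ (fun j => algebraMap L K (y j)) := hy.algebraMap_comp
  have hω' : ω = stdForm (fun i => algebraMap L K (y i)) (ω F') :=
    funext fun X => pluri_eq hyK hFK hω.1 X
  have h1 := h (ω F') (by rw [← hω']; exact hω)
  choose S hS hcard htrS using fun q : L →ₐ[ℂ] Ω => exists_fib (K' := K) q
  have h2 : ∀ σ ∈ c.support, (c σ : Ω) * pullback σ z E ω D =
      (Matrix.of fun i j => D i (restr L Ω σ (y j))).det * ((c σ : Ω) * σ (ω F')) := by
    intro σ _
    rw [pullback_indep σ hz hE hyK hFK hω.1 D]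
    unfold pullback
    simp only [restr_apply]
    ring
  rw [Finset.sum_congr rfl h2]
  rw [← Finset.sum_fiberwise_of_maps_to (s := c.support) (t := c.support.image (restr L Ω))
    (g := restr L Ω) (fun σ hσ => Finset.mem_image_of_mem _ hσ)]
  refine Finset.sum_eq_zero fun q _ => ?_
  have h3 : ∑ σ ∈ c.support with restr L Ω σ = q,
      (Matrix.of fun i j => D i (restr L Ω σ (y j))).det * ((c σ : Ω) * σ (ω F')) =
      (Matrix.of fun i j => D i (q (y j))).det * fibreTrace c q (ω F') := by
    unfold fibreTrace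
    rw [Finset.mul_sum]
    have h4 : c.support.filter (fun σ => restr L Ω σ = q) =
        c.support.filter (fun σ => ∀ b : L, σ (algebraMap L K b) = q b) := by
      refine Finset.filter_congr fun σ _ => restr_iff
    rw [← h4]
    refine Finset.sum_congr rfl fun σ hσ => ?_
    rw [(Finset.mem_filter.1 hσ).2]
  rw [h3, h1, mul_zero]

/-- the traces of a cycle on one fibre with null trace -/
theorem one_fibre [Algebra.EssFiniteType ℂ K] (hΩ : Algebra.trdeg ℂ Ω = n) {y : Fin n → L}
    (hy : IsTranscendenceBasis ℂ y) {c : (K →ₐ[ℂ] Ω) →₀ ℤ} (hc : NullTrace n c)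
    (hone : ∀ σ ∈ c.support, ∀ τ ∈ c.support, ∀ b : L, σ (algebraMap L K b) = τ (algebraMap L K b))
    {a : K} (ha : GlobalForm n (stdForm (fun i => algebraMap L K (y i)) a)) (q : L →ₐ[ℂ] Ω) :
    fibreTrace c q a = 0 := by
  classical
  refine all_good hΩ hy (r := 1) hc ?_ a ⟨{1}, ?_, ?_⟩ q
  · unfold numFibres
    have hfin := bad_finite y 1 c
    rw [Set.ncard_le_one hfin]
    have h1 : ∀ q : L →ₐ[ℂ] Ω, ∀ a : K, fibreTrace c q a ≠ 0 → ∃ σ ∈ c.support,
        ∀ b : L, σ (algebraMap L K b) = q b := by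
      intro q a h
      by_contra hcon
      push Not at hcon
      apply h
      unfold fibreTrace
      refine Finset.sum_eq_zero fun σ hσ => ?_
      rw [Finset.mem_filter] at hσ
      obtain ⟨b, hb⟩ := hcon σ hσ.1
      exact absurd (hσ.2 b) hb
    rintro q1 ⟨a1, -, h2⟩ q2 ⟨a2, -, h3⟩
    obtain ⟨σ1, h4, h5⟩ := h1 q1 a1 h2
    obtain ⟨σ2, h6, h7⟩ := h1 q2 a2 h3
    ext b
    rw [← h5, ← h7]
    exact hone σ1 h4 σ2 h6 b
  · intro U hU μ hμ u hu
    have h1 := hμ 1 rfl
    have h2 : U = {u} := by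
      refine Finset.eq_singleton_iff_unique_mem.2 ⟨hu, fun v hv => ?_⟩
      exact Finset.card_le_one.1 hU v hv u hu
    rw [h2, Finset.sum_singleton, map_one, mul_one] at h1
    exact h1
  · intro v hv
    have h0 : v = 1 := hv
    rw [h0, map_one, one_mul]
    exact ha

/-- the image of a cycle on an intermediate covering -/
theorem map_restr {M : IntermediateField L K} (D : (K →ₐ[ℂ] Ω) →₀ ℤ) (σ : K →ₐ[ℂ] Ω)
    {S : Finset (K →ₐ[ℂ] Ω)} (hS : ∀ τ, τ ∈ S ↔ restr M Ω τ = restr M Ω σ) :
    (D.mapDomain (restr M Ω)) (restr M Ω σ) = ∑ τ ∈ S, D τ := by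
  classical
  rw [Finsupp.mapDomain, Finsupp.sum_apply, Finsupp.sum]
  have h3 : ∑ τ ∈ S, D τ = ∑ τ ∈ D.support.filter (fun τ => restr M Ω τ = restr M Ω σ),
      D τ := by
    symm
    refine Finset.sum_subset (fun τ hτ => ?_) fun τ hτ hn => ?_
    · rw [Finset.mem_filter] at hτ
      exact (hS τ).2 hτ.2
    · rw [Finset.mem_filter, not_and, Finsupp.mem_support_iff] at hn
      by_contra h6
      exact hn h6 ((hS τ).1 hτ)
  rw [h3, Finset.sum_filter]
  refine Finset.sum_congr rfl fun τ _ => ?_
  rw [Finsupp.single_apply]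

/-- global forms and automorphisms -/
theorem twist_global [Algebra.EssFiniteType ℂ K] {y : Fin n → L}
    (hy : IsTranscendenceBasis ℂ y) {a : K}
    (ha : GlobalForm n (stdForm (fun i => algebraMap L K (y i)) a)) (g : K ≃ₐ[L] K) :
    GlobalForm n (stdForm (fun i => algebraMap L K (y i)) (g a)) := by
  have hyK : IsTranscendenceBasis ℂ (fun j => algebraMap L K (y j)) := hy.algebraMap_comp
  have hK : Algebra.trdeg ℂ K = n := by
    rw [← hyK.cardinalMk_eq_trdeg]
    simp
  have h1 := pull_iso ((g : K →ₐ[L] K).restrictScalars ℂ) g.surjective hK hyK ha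
  have h2 : (fun i => ((g : K →ₐ[L] K).restrictScalars ℂ) (algebraMap L K (y i))) =
      fun i => algebraMap L K (y i) := funext fun i => g.commutes _
  rw [h2] at h1
  exact h1

/-- **New cycles on unseen intermediate coverings have null trace.** -/
theorem new_trace [Algebra.EssFiniteType ℂ K] [IsGalois L K]
    (hcomm : ∀ g h : K ≃ₐ[L] K, g * h = h * g) {y : Fin n → L} (hy : IsTranscendenceBasis ℂ y)
    {M : IntermediateField L K} (hun : ∀ a, IsKummer M a →
      ¬ GlobalForm n (stdForm (fun i => algebraMap L K (y i)) a)) {z : (M →ₐ[ℂ] Ω) →₀ ℤ}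
    (hz : IsNew z) {c : (K →ₐ[ℂ] Ω) →₀ ℤ} (hc : ∀ σ, c σ = z (restr M Ω σ))
    (hcz : c.mapDomain (restr M Ω) = Module.finrank M K • z) {w : K}
    (hw : GlobalForm n (stdForm (fun i => algebraMap L K (y i)) w)) (q : L →ₐ[ℂ] Ω) :
    fibreTrace c q w = 0 := by
  classical
  have hcΩ : CharZero Ω := charZero_of_injective_algebraMap (algebraMap ℂ Ω).injective
  have hcK : CharZero K := charZero_of_injective_algebraMap (algebraMap ℂ K).injective
  let iG : CommGroup (K ≃ₐ[L] K) := { (inferInstance : Group (K ≃ₐ[L] K)) with mul_comm := hcomm }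
  obtain ⟨ι, iι, X, N, hN, hX0, hX1⟩ := dual_sum (K ≃ₐ[L] K)
  obtain ⟨σ0, rfl⟩ : ∃ σ0 : K →ₐ[ℂ] Ω, restr L Ω σ0 = q := restr_surj q
  obtain ⟨W, hW⟩ : ∃ W : ι → K, ∀ i, W i = ∑ g : K ≃ₐ[L] K, algebraMap ℂ K (X i g⁻¹) * g w :=
    ⟨_, fun _ => rfl⟩
  have hconst : ∀ (g : K ≃ₐ[L] K) (x : ℂ), g (algebraMap ℂ K x) = algebraMap ℂ K x := by
    intro g x
    rw [IsScalarTower.algebraMap_apply ℂ L K, AlgEquiv.commutes]
  have hWsum : ∑ i, W i = N * w := by
    simp only [hW]
    rw [Finset.sum_comm, Finset.sum_eq_single (1 : K ≃ₐ[L] K)]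
    · rw [inv_one, AlgEquiv.one_apply, ← Finset.sum_mul, ← map_sum, hX1, map_natCast]
    · intro g _ hg
      rw [← Finset.sum_mul, ← map_sum, hX0 _ (inv_ne_one.2 hg), map_zero, zero_mul]
    · intro h
      exact absurd (Finset.mem_univ _) h
  have hWg : ∀ i (g : K ≃ₐ[L] K), g (W i) = algebraMap ℂ K (X i g) * W i := by
    intro i g
    rw [hW, map_sum, Finset.mul_sum, ← Equiv.sum_comp (Equiv.mulLeft g)
      (fun h => algebraMap ℂ K (X i g) * (algebraMap ℂ K (X i h⁻¹) * h w))]
    refine Finset.sum_congr rfl fun h _ => ?_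
    simp only [Equiv.coe_mulLeft]
    have h2 : X i g * X i (h⁻¹ * g⁻¹) = X i h⁻¹ := by
      rw [map_mul, mul_comm (X i h⁻¹), ← mul_assoc, ← map_mul (X i) g, mul_inv_cancel, map_one,
        one_mul]
    rw [mul_inv_rev, ← mul_assoc, ← map_mul (algebraMap ℂ K), h2, map_mul g, hconst]
    rfl
  have hWglob : ∀ i, GlobalForm n (stdForm (fun i => algebraMap L K (y i)) (W i)) := by
    intro i
    rw [hW]
    exact sum_global _ _ _ fun g => twist_global hy hw g
  -- the traces
  have hpart : ∀ i, fibreTrace c (restr L Ω σ0) (W i) = 0 := by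
    intro i
    obtain ⟨A, hA⟩ : ∃ A, A = ∑ g : K ≃ₐ[L] K, (c (tw σ0 g) : Ω) * algebraMap ℂ Ω (X i g) :=
      ⟨_, rfl⟩
    have h1 : fibreTrace c (restr L Ω σ0) (W i) = A * σ0 (W i) := by
      rw [trace_galois, hA, Finset.sum_mul]
      refine Finset.sum_congr rfl fun g _ => ?_
      rw [hWg i g, map_mul, AlgHom.commutes, mul_assoc]
    rw [h1]
    by_cases hH : M.fixingSubgroup ≤ (X i).ker
    · by_cases hM' : IntermediateField.fixedField (X i).ker = M
      · have h2 : W i = 0 := by
          by_contra h3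
          have h4 := kummer_of_char (H := (X i).ker) (X i) (fun g => by
            rw [MonoidHom.mem_ker]) h3 (hWg i)
          rw [hM'] at h4
          exact hun _ h4 (hWglob i)
        rw [h2, map_zero, mul_zero]
      · have hlt : IntermediateField.fixedField (X i).ker < M := by
          refine lt_of_le_of_ne ?_ hM'
          rw [← IsGalois.fixedField_fixingSubgroup M]
          exact IntermediateField.fixedField_antitone hH
        obtain ⟨M', hMdef⟩ : ∃ M', M' = IntermediateField.fixedField (X i).ker := ⟨_, rfl⟩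
        have hfix : M'.fixingSubgroup = (X i).ker := by
          rw [hMdef, IntermediateField.fixingSubgroup_fixedField]
        rw [← hMdef] at hlt
        have hpush : c.mapDomain (restr M' Ω) = 0 := by
          have h6 : restrTo hlt.le ∘ restr M Ω = restr (K' := K) M' Ω := by
            funext σ
            exact restrTo_restr hlt.le σ
          rw [← h6, Finsupp.mapDomain_comp, hcz, Finsupp.mapDomain_smul, hz M' hlt, smul_zero]
        have hzero : ∀ σ : K →ₐ[ℂ] Ω,
            ∑ h ∈ Finset.univ.filter (fun h => h ∈ (X i).ker), c (tw σ h) = 0 := by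
          intro σ
          obtain ⟨S, hS, -, -⟩ := exists_fib (K' := K) (restr M' Ω σ)
          have h7 := map_restr c σ hS
          rw [hpush, Finsupp.zero_apply] at h7
          rw [h7]
          refine Finset.sum_bij (fun h _ => tw σ h) (fun h hh => ?_)
            (fun g _ h _ hgh => tw_inj σ hgh) (fun τ hτ => ?_) fun g _ => rfl
          · rw [Finset.mem_filter, ← hfix] at hh
            rw [hS]
            ext x
            rw [restr_apply, restr_apply, tw_apply]
            congr 1
            exact (IntermediateField.mem_fixingSubgroup_iff _ _).1 hh.2 x x.2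
          · obtain ⟨g, hg, hgτ⟩ := tw_trans' ((hS τ).1 hτ)
            refine ⟨g, ?_, hgτ.symm⟩
            rw [Finset.mem_filter, ← hfix]
            exact ⟨Finset.mem_univ _, hg⟩
        have h8 : ((Finset.univ.filter (fun h => h ∈ (X i).ker)).card : Ω) * A = 0 := by
          have h9 : ∀ h ∈ Finset.univ.filter (fun h => h ∈ (X i).ker), A =
              ∑ g : K ≃ₐ[L] K, (c (tw (tw σ0 g) h) : Ω) * algebraMap ℂ Ω (X i g) := by
            intro h hh
            rw [hA, ← Equiv.sum_comp (Equiv.mulRight h)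
              (fun g => (c (tw σ0 g) : Ω) * algebraMap ℂ Ω (X i g))]
            refine Finset.sum_congr rfl fun g _ => ?_
            simp only [Equiv.coe_mulRight]
            rw [tw_tw, map_mul (X i), (MonoidHom.mem_ker).1 (Finset.mem_filter.1 hh).2, mul_one]
          rw [← nsmul_eq_mul, ← Finset.sum_const, Finset.sum_congr rfl h9, Finset.sum_comm]
          refine Finset.sum_eq_zero fun g _ => ?_
          rw [← Finset.sum_mul, ← Int.cast_sum, hzero, Int.cast_zero, zero_mul]
        have h10 : ((Finset.univ.filter (fun h => h ∈ (X i).ker)).card : Ω) ≠ 0 := by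
          have : (Finset.univ.filter (fun h => h ∈ (X i).ker)).Nonempty :=
            ⟨1, by simp⟩
          exact_mod_cast (Finset.card_pos.2 this).ne'
        rw [(mul_eq_zero.1 h8).resolve_left h10, zero_mul]
    · obtain ⟨h, hh, hh1⟩ := Set.not_subset.1 hH
      have h2 : A = algebraMap ℂ Ω (X i h) * A := by
        conv_lhs => rw [hA, ← Equiv.sum_comp (Equiv.mulRight h)
          (fun g => (c (tw σ0 g) : Ω) * algebraMap ℂ Ω (X i g))]
        rw [hA, Finset.mul_sum]
        refine Finset.sum_congr rfl fun g _ => ?_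
        simp only [Equiv.coe_mulRight]
        have h3 : c (tw σ0 (g * h)) = c (tw σ0 g) := by
          rw [hc, hc]
          congr 1
          ext x
          rw [restr_apply, restr_apply, tw_apply, tw_apply, AlgEquiv.mul_apply]
          congr 2
          exact (IntermediateField.mem_fixingSubgroup_iff _ _).1 hh x x.2
        rw [h3, map_mul (X i), map_mul]
        ring
      have h3 : (1 - algebraMap ℂ Ω (X i h)) * A = 0 := by linear_combination h2
      have h4 : A = 0 := by
        refine (mul_eq_zero.1 h3).resolve_left fun h5 => hh1 ?_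
        change X i h = 1
        apply (algebraMap ℂ Ω).injective
        rw [map_one]
        exact (sub_eq_zero.1 h5).symm
      rw [h4, zero_mul]
  have htot : (N : Ω) * fibreTrace c (restr L Ω σ0) w = 0 := by
    have h1 : ∑ i, fibreTrace c (restr L Ω σ0) (W i) = (N : Ω) * fibreTrace c (restr L Ω σ0) w := by
      unfold fibreTrace
      rw [Finset.sum_comm, Finset.mul_sum]
      refine Finset.sum_congr rfl fun σ _ => ?_
      rw [← Finset.mul_sum, ← map_sum, hWsum, map_mul, map_natCast]
      ring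
    rw [← h1]
    exact Finset.sum_eq_zero fun i _ => hpart i
  refine (mul_eq_zero.1 htot).resolve_left ?_
  exact_mod_cast hN.ne'

/-- the part of a cycle on a fibre -/
theorem filter_trace (c : (K →ₐ[ℂ] Ω) →₀ ℤ) {a : K} (h : ∀ q : L →ₐ[ℂ] Ω, fibreTrace c q a = 0)
    {q0 : L →ₐ[ℂ] Ω} [DecidablePred fun σ : K →ₐ[ℂ] Ω => restr L Ω σ = q0] (q : L →ₐ[ℂ] Ω) :
    fibreTrace (c.filter fun σ => restr L Ω σ = q0) q a = 0 := by
  classical
  obtain ⟨S, hS, -, -⟩ := exists_fib (K' := K) q
  by_cases hq : q = q0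
  · rw [← h q, trace_eq hS, trace_eq hS]
    refine Finset.sum_congr rfl fun σ hσ => ?_
    rw [Finsupp.filter_apply, if_pos (((hS σ).1 hσ).trans hq)]
  · rw [trace_eq hS]
    refine Finset.sum_eq_zero fun σ hσ => ?_
    rw [Finsupp.filter_apply, if_neg (fun h1 => hq (((hS σ).1 hσ).symm.trans h1)), Int.cast_zero,
      zero_mul]

/-- **The criterion.** -/
theorem criterion [Algebra.EssFiniteType ℂ K] [IsGalois L K]
    (hcomm : ∀ g h : K ≃ₐ[L] K, g * h = h * g) (hΩ : Algebra.trdeg ℂ Ω = n) {y : Fin n → L}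
    (hy : IsTranscendenceBasis ℂ y) :
    (∀ c : (K →ₐ[ℂ] Ω) →₀ ℤ, NullTrace n c →
      (∀ σ ∈ c.support, ∀ τ ∈ c.support, ∀ b : L, σ (algebraMap L K b) = τ (algebraMap L K b)) →
      ∃ N : ℕ, 0 < N ∧ N • c ∈ Rat K Ω) ↔
    ∀ M : IntermediateField L K, (∃ a, IsKummer M a) → (∀ a, IsKummer M a →
      ¬ GlobalForm n (stdForm (fun i => algebraMap L K (y i)) a)) → NewSmall Ω M := by
  classical
  constructor
  · intro hall M _ hun z hz
    obtain ⟨c, hc, -, -, hcz⟩ := exists_lift_cycle (K' := K) z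
    have htr : ∀ w : K, GlobalForm n (stdForm (fun i => algebraMap L K (y i)) w) →
        ∀ q : L →ₐ[ℂ] Ω, fibreTrace c q w = 0 :=
      fun w hw q => new_trace hcomm hy hun hz hc hcz hw q
    have hpart : ∀ q0 : L →ₐ[ℂ] Ω, ∃ N : ℕ, 0 < N ∧
        N • (c.filter fun σ => restr L Ω σ = q0) ∈ Rat K Ω := by
      intro q0
      refine hall _ (null_of_traces hy fun a ha q => filter_trace c (htr a ha) q) ?_
      intro σ hσ τ hτ b
      rw [Finsupp.support_filter, Finset.mem_filter] at hσ hτ
      have h1 := hσ.2.trans hτ.2.symm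
      exact congrArg (fun f : L →ₐ[ℂ] Ω => f b) h1
    choose N hN hrat using hpart
    obtain ⟨I, hI⟩ : ∃ I, I = c.support.image (restr L Ω) := ⟨_, rfl⟩
    have hsum : ∑ q ∈ I, (c.filter fun σ => restr L Ω σ = q) = c := by
      ext σ
      rw [Finsupp.finsetSum_apply]
      by_cases hσ : restr L Ω σ ∈ I
      · rw [Finset.sum_eq_single (restr L Ω σ), Finsupp.filter_apply, if_pos rfl]
        · intro q _ hq
          rw [Finsupp.filter_apply, if_neg (Ne.symm hq)]
        · intro h
          exact absurd hσ h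
      · have h4 : c σ = 0 := by
          by_contra h
          apply hσ
          rw [hI]
          exact Finset.mem_image_of_mem _ (Finsupp.mem_support_iff.2 h)
        rw [h4]
        refine Finset.sum_eq_zero fun q hq => ?_
        rw [Finsupp.filter_apply, if_neg fun h => hσ (by rw [h]; exact hq)]
    have htot : (∏ q ∈ I, N q) • c ∈ Rat K Ω := by
      conv =>
        arg 2
        arg 2
        rw [← hsum]
      rw [Finset.smul_sum]
      refine sum_mem fun q hq => ?_
      rw [← Finset.mul_prod_erase I N hq, mul_comm, mul_smul]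
      exact AddSubgroup.nsmul_mem _ (hrat q) _
    have h5 := rat_push (K := M) htot
    rw [Finsupp.mapDomain_smul, hcz, ← mul_smul] at h5
    exact ⟨_, Nat.mul_pos (Finset.prod_pos fun q _ => hN q) Module.finrank_pos, h5⟩
  · intro hM c hc hone
    refine abelian hcomm (P := fun a => GlobalForm n (stdForm (fun i => algebraMap L K (y i)) a))
      (fun a ha q => one_fibre hΩ hy hc hone ha q) fun M hKM => ?_
    by_cases h : ∃ a, IsKummer M a ∧ GlobalForm n (stdForm (fun i => algebraMap L K (y i)) a)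
    · exact Or.inl h
    · exact Or.inr (hM M hKM fun a ha hglob => h ⟨a, ha, hglob⟩)

end

end Pool.Agent.U981.DC
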