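import Pool.Agent.U981.DC.Span

/-!
Zero-cycles on the fibres of a generically finite map: definitions.
-/

set_option autoImplicit false
set_option linter.overlappingInstances false
set_option linter.unusedSectionVars false

open FF Pool.Agent.W603.LV Pool.Agent.N162.BC Pool.Agent.N141.CV Pool.Agent.N162.PR
  Pool.Agent.W602.GT Pool.Agent.U1.BL

namespace Pool.Agent.U981.DC

section

variable {L K : Type} (Ω : Type) [Field L] [Field K] [Algebra ℂ L] [Algebra ℂ K] [Algebra L K]
  [IsScalarTower ℂ L K] [Field Ω] [Algebra ℂ Ω] {n : ℕ}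

/-- The set `V` of functions on `W` separates any `r` generic points of `W` over `Ω`: the functions
`u : V → Ω` are linearly independent over `Ω`, for any set `U` of at most `r` embeddings `u` of the
function field `L` of `W` in `Ω`. -/
def SeparatesPoints (V : Set L) (r : ℕ) : Prop :=
  ∀ U : Finset (L →ₐ[ℂ] Ω), U.card ≤ r → ∀ μ : (L →ₐ[ℂ] Ω) → Ω,
    (∀ v ∈ V, ∑ u ∈ U, μ u * u v = 0) → ∀ u ∈ U, μ u = 0

/-- The function `a` on `T` is seen by `r` points: there are functions `v` on `W`, which separate
any `r` generic points of `W` over `Ω`, such that `v a dy_1 ∧ … ∧ dy_n` is a global form on `T`. -/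
def Seen (y : Fin n → L) (r : ℕ) (a : K) : Prop :=
  ∃ V : Set L, SeparatesPoints Ω V r ∧ ∀ v ∈ V,
    GlobalForm n (stdForm (fun i => algebraMap L K (y i)) (algebraMap L K v * a))

open Classical in
/-- The trace of the function `a` along the part of the cycle `c` on the fibre over `q`. -/
noncomputable def fibreTrace {Ω : Type} [Field Ω] [Algebra ℂ Ω] (c : (K →ₐ[ℂ] Ω) →₀ ℤ)
    (q : L →ₐ[ℂ] Ω) (a : K) : Ω :=
  ∑ σ ∈ c.support.filter (fun σ => ∀ b : L, σ (algebraMap L K b) = q b), (c σ : Ω) * σ a

/-- The number of the fibres of `T → W`, over points `q` of `W` with values in `Ω`, on which the trace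
along `c` of a function which is seen by `r` points is not zero. -/
noncomputable def numFibres {Ω : Type} [Field Ω] [Algebra ℂ Ω] (y : Fin n → L) (r : ℕ)
    (c : (K →ₐ[ℂ] Ω) →₀ ℤ) : ℕ :=
  Set.ncard {q : L →ₐ[ℂ] Ω | ∃ a : K, Seen Ω y r a ∧ fibreTrace c q a ≠ 0}

/-- All zero-cycles on the variety with the function field `M` are, up to torsion, rationally
equivalent to cycles which are supported on fixed divisors. -/
def Small (M : IntermediateField L K) : Prop :=
  ∀ z : (M →ₐ[ℂ] Ω) →₀ ℤ, ∃ N : ℕ, 0 < N ∧ N • z ∈ Rat M Ω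

/-- The intermediate covering with the function field `M` is `W(a^{1/n})`. -/
def IsKummer (M : IntermediateField L K) (a : K) : Prop :=
  a ≠ 0 ∧ (∃ m : ℕ, 0 < m ∧ a ^ m ∈ Set.range (algebraMap L K)) ∧
    IntermediateField.adjoin L {a} = M

/-- The image of the point `τ` under the map between the intermediate coverings with the function
fields `M' ⊆ M`. -/
noncomputable def restrTo {Ω : Type} [Field Ω] [Algebra ℂ Ω] {M' M : IntermediateField L K}
    (h : M' ≤ M) (τ : M →ₐ[ℂ] Ω) : M' →ₐ[ℂ] Ω where
  toRingHom := τ.toRingHom.comp (IntermediateField.inclusion h).toRingHom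
  commutes' z := τ.commutes z

/-- The cycle `z` on the intermediate covering with the function field `M` is new: its images on all
smaller intermediate coverings are zero. -/
def IsNew {Ω : Type} [Field Ω] [Algebra ℂ Ω] {M : IntermediateField L K}
    (z : (M →ₐ[ℂ] Ω) →₀ ℤ) : Prop :=
  ∀ (M' : IntermediateField L K) (h : M' < M), z.mapDomain (restrTo h.le) = 0

/-- All new zero-cycles on the intermediate covering with the function field `M` are, up to torsion,
rationally equivalent to cycles which are supported on fixed divisors. -/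
def NewSmall (M : IntermediateField L K) : Prop :=
  ∀ z : (M →ₐ[ℂ] Ω) →₀ ℤ, IsNew z → ∃ N : ℕ, 0 < N ∧ N • z ∈ Rat M Ω

end

end Pool.Agent.U981.DC
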