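import Pool.Agent.U1.BL.Main

/-!
Zero-cycles on the fibres of a generically finite map which are sums of pull-backs from
intermediate varieties.
-/

set_option autoImplicit false
set_option linter.overlappingInstances false
set_option linter.unusedSectionVars false

open FF Pool.Agent.W603.LV Pool.Agent.N162.BC Pool.Agent.N141.CV Pool.Agent.N162.PR
  Pool.Agent.W602.GT Pool.Agent.U1.BL

namespace Pool.Agent.U981.DC

section

variable {L K Ω : Type} [Field L] [Field K] [Algebra ℂ L] [Algebra ℂ K] [Algebra L K]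
  [IsScalarTower ℂ L K] [Field Ω] [Algebra ℂ Ω] {n : ℕ}

/-- the function `e` on the set of points of `T` is the pull-back of a function on the set of points
of the intermediate variety with the function field `M` -/
def PullbackFrom (M : IntermediateField L K) (e : (K →ₐ[ℂ] Ω) → ℚ) : Prop :=
  ∀ σ τ : K →ₐ[ℂ] Ω, (∀ a ∈ M, σ a = τ a) → e σ = e τ

/-- on the fibre over `q` the cycle `c` is a sum of pull-backs, with rational coefficients, from the
intermediate varieties whose function fields have the property `Base` -/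
def SumOfPullbacks (Base : IntermediateField L K → Prop) (c : (K →ₐ[ℂ] Ω) →₀ ℤ)
    (q : L →ₐ[ℂ] Ω) : Prop :=
  ∃ f ∈ Submodule.span ℚ {e : (K →ₐ[ℂ] Ω) → ℚ | ∃ M, Base M ∧ PullbackFrom M e},
    ∀ σ : K →ₐ[ℂ] Ω, (∀ a : L, σ (algebraMap L K a) = q a) → (c σ : ℚ) = f σ

end

section

variable {L K Ω : Type} [Field L] [Field K] [Algebra ℂ L] [Algebra ℂ K] [Algebra L K]
  [IsScalarTower ℂ L K] [FiniteDimensional L K] [Field Ω] [Algebra ℂ Ω] [IsAlgClosed Ω] {n : ℕ}

omit [FiniteDimensional L K] in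
instance tower (M : IntermediateField L K) : IsScalarTower ℂ M K :=
  IsScalarTower.of_algebraMap_eq fun _ => rfl

omit [FiniteDimensional L K] in
theorem towerL (M : IntermediateField L K) : IsScalarTower ℂ L M :=
  IsScalarTower.of_algebraMap_eq fun x => by
    apply Subtype.ext
    exact IsScalarTower.algebraMap_apply ℂ L K x

theorem restr_iff {q : L →ₐ[ℂ] Ω} {σ : K →ₐ[ℂ] Ω} :
    restr L Ω σ = q ↔ ∀ a : L, σ (algebraMap L K a) = q a := by
  constructor
  · rintro rfl a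
    rfl
  · intro h
    ext a
    exact h a

/-- pull-backs do not contribute to the traces -/
theorem pull_sum {M : IntermediateField L K} {e : (K →ₐ[ℂ] Ω) → ℚ} (he : PullbackFrom M e) {a : K}
    {v : L} (htr : algebraMap L M v * Algebra.trace M K a = 0) (q : L →ₐ[ℂ] Ω)
    (S : Finset (K →ₐ[ℂ] Ω)) (hS : ∀ σ, σ ∈ S ↔ restr L Ω σ = q) :
    q v * ∑ σ ∈ S, ((e σ : ℚ) : Ω) * σ a = 0 := by
  classical
  choose SM hSM hcardM htrM using fun τ : M →ₐ[ℂ] Ω => exists_fib (K' := K) τ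
  rw [← Finset.sum_fiberwise_of_maps_to (s := S) (t := S.image (restr M Ω)) (g := restr M Ω)
    (fun σ hσ => Finset.mem_image_of_mem _ hσ), Finset.mul_sum]
  refine Finset.sum_eq_zero fun τ hτ => ?_
  obtain ⟨σ0, hσ0, rfl⟩ := Finset.mem_image.1 hτ
  have hq : ∀ b : L, σ0 (algebraMap L K b) = q b := restr_iff.1 ((hS σ0).1 hσ0)
  have h1 : (S.filter fun σ => restr M Ω σ = restr M Ω σ0) = SM (restr M Ω σ0) := by
    ext σ
    rw [Finset.mem_filter, hSM]
    constructor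
    · rintro ⟨-, h⟩
      exact h
    · intro h
      refine ⟨(hS σ).2 (restr_iff.2 fun b => ?_), h⟩
      rw [← hq b]
      have h2 := congrArg (fun g : M →ₐ[ℂ] Ω => g (algebraMap L M b)) h
      simp only [restr_apply] at h2
      rw [← IsScalarTower.algebraMap_apply L M K] at h2
      exact h2
  rw [h1]
  have h2 : ∑ σ ∈ SM (restr M Ω σ0), ((e σ : ℚ) : Ω) * σ a =
      ((e σ0 : ℚ) : Ω) * restr M Ω σ0 (Algebra.trace M K a) := by
    rw [← htrM, Finset.mul_sum]
    refine Finset.sum_congr rfl fun σ hσ => ?_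
    rw [he σ σ0 fun b hb => ?_]
    have h3 := congrArg (fun g : M →ₐ[ℂ] Ω => g ⟨b, hb⟩) ((hSM _ _).1 hσ)
    exact h3
  rw [h2]
  have h4 : q v * restr M Ω σ0 (Algebra.trace M K a) = 0 := by
    have h5 : q v = restr M Ω σ0 (algebraMap L M v) := by
      rw [restr_apply, ← IsScalarTower.algebraMap_apply L M K, hq]
    rw [h5, ← map_mul, htr, map_zero]
  calc q v * (((e σ0 : ℚ) : Ω) * restr M Ω σ0 (Algebra.trace M K a)) =
      ((e σ0 : ℚ) : Ω) * (q v * restr M Ω σ0 (Algebra.trace M K a)) := by ring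
    _ = 0 := by rw [h4, mul_zero]

/-- sums of pull-backs do not contribute to the traces -/
theorem sum_of_pullbacks_sum {Base : IntermediateField L K → Prop} {a : K} {v : L}
    (htr : ∀ M, Base M → algebraMap L M v * Algebra.trace M K a = 0)
    {c : (K →ₐ[ℂ] Ω) →₀ ℤ} {q : L →ₐ[ℂ] Ω} (h : SumOfPullbacks Base c q)
    (S : Finset (K →ₐ[ℂ] Ω)) (hS : ∀ σ, σ ∈ S ↔ restr L Ω σ = q) :
    q v * ∑ σ ∈ S, (c σ : Ω) * σ a = 0 := by
  classical
  have hcΩ : CharZero Ω := charZero_of_injective_algebraMap (algebraMap ℂ Ω).injective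
  obtain ⟨f, hf, hcf⟩ := h
  have h1 : ∑ σ ∈ S, (c σ : Ω) * σ a = ∑ σ ∈ S, ((f σ : ℚ) : Ω) * σ a := by
    refine Finset.sum_congr rfl fun σ hσ => ?_
    rw [← hcf σ (restr_iff.1 ((hS σ).1 hσ)), Rat.cast_intCast]
  rw [h1]
  clear hcf h1
  induction hf using Submodule.span_induction with
  | mem e he =>
    obtain ⟨M, hM, he⟩ := he
    exact pull_sum he (htr M hM) q S hS
  | zero => simp
  | add f g _ _ hf hg =>
    have h2 : ∑ σ ∈ S, (((f + g) σ : ℚ) : Ω) * σ a =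
        ∑ σ ∈ S, ((f σ : ℚ) : Ω) * σ a + ∑ σ ∈ S, ((g σ : ℚ) : Ω) * σ a := by
      rw [← Finset.sum_add_distrib]
      refine Finset.sum_congr rfl fun σ _ => ?_
      rw [Pi.add_apply, Rat.cast_add, add_mul]
    rw [h2, mul_add, hf, hg, add_zero]
  | smul r f _ hf =>
    have h2 : ∑ σ ∈ S, (((r • f) σ : ℚ) : Ω) * σ a =
        (r : Ω) * ∑ σ ∈ S, ((f σ : ℚ) : Ω) * σ a := by
      rw [Finset.mul_sum]
      refine Finset.sum_congr rfl fun σ _ => ?_
      rw [Pi.smul_apply, smul_eq_mul, Rat.cast_mul, mul_assoc]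
    rw [h2, mul_left_comm, hf, mul_zero]

/-- **The relations on the fibres.** -/
theorem relations [Algebra.EssFiniteType ℂ K] (hL : Algebra.trdeg ℂ L = n)
    (hΩ : Algebra.trdeg ℂ Ω = n) {y : Fin n → L} (hy : IsTranscendenceBasis ℂ y) {A : Set K}
    {V : Set L}
    (hglob : ∀ a ∈ A, ∀ v ∈ V, GlobalForm n (stdForm (fun i => algebraMap L K (y i))
      (algebraMap L K v * a))) {r : ℕ}
    (hV : ∀ U : Finset (L →ₐ[ℂ] Ω), U.card ≤ r → ∀ μ : (L →ₐ[ℂ] Ω) → Ω,
      (∀ v ∈ V, ∑ u ∈ U, μ u * u v = 0) → ∀ u ∈ U, μ u = 0)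
    {c : (K →ₐ[ℂ] Ω) →₀ ℤ} (hc : NullTrace n c) (S : (L →ₐ[ℂ] Ω) → Finset (K →ₐ[ℂ] Ω))
    (hS : ∀ q σ, σ ∈ S q ↔ restr L Ω σ = q) (U : Finset (L →ₐ[ℂ] Ω)) (hU : U.card ≤ r)
    (hgood : ∀ q ∉ U, ∀ a ∈ A, ∀ v ∈ V, q v * ∑ σ ∈ S q, (c σ : Ω) * σ a = 0) :
    ∀ a ∈ A, ∀ q ∈ U, ∑ σ ∈ S q, (c σ : Ω) * σ a = 0 := by
  classical
  obtain ⟨x, hx⟩ := exists_tb (k := ℂ) (L := Ω) hΩ
  choose D hD using fun i : Fin n => Pool.Agent.W602.GT.exists_der x hx
    fun j => if i = j then (1 : Ω) else 0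
  choose E hE using fun i : Fin n => Pool.Agent.W602.GT.exists_der y hy
    fun j => if i = j then (1 : L) else 0
  choose E' hE' using fun i => Pool.Agent.Y172.exists_lift (k := ℂ) (K := L) (L := K) hL (E i)
  have hEK := Pool.Agent.Y172.lift_dual hE hE'
  have hyK : IsTranscendenceBasis ℂ (fun j => algebraMap L K (y j)) := hy.algebraMap_comp
  obtain ⟨J, hJ⟩ : ∃ J : (L →ₐ[ℂ] Ω) → Ω, ∀ q, J q = (Matrix.of fun i j => D i (q (y j))).det :=
    ⟨_, fun _ => rfl⟩
  have hJ0 : ∀ q, J q ≠ 0 := fun q => by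
    rw [hJ]
    exact jac_ne' hy hΩ hx hD q
  intro a ha
  have hrel : ∀ u ∈ U, J u * ∑ σ ∈ S u, (c σ : Ω) * σ a = 0 := by
    refine hV U hU (fun q => J q * ∑ σ ∈ S q, (c σ : Ω) * σ a) fun v hv => ?_
    have h1 := hc _ (hglob a ha v hv) _ E' hyK hEK D
    have h2 : ∀ σ ∈ c.support, (c σ : Ω) * pullback σ (fun j => algebraMap L K (y j)) E'
        (stdForm (fun i => algebraMap L K (y i)) (algebraMap L K v * a)) D =
        J (restr L Ω σ) * restr L Ω σ v * ((c σ : Ω) * σ a) := by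
      intro σ _
      unfold pullback
      rw [stdForm_dual _ _ hEK, hJ, map_mul, restr_apply]
      simp only [restr_apply]
      ring
    rw [Finset.sum_congr rfl h2] at h1
    obtain ⟨I, hI⟩ : ∃ I, I = c.support.image (restr L Ω) ∪ U := ⟨_, rfl⟩
    rw [← Finset.sum_fiberwise_of_maps_to (s := c.support) (t := I) (g := restr L Ω)
      (fun σ hσ => by
        rw [hI]
        exact Finset.mem_union_left _ (Finset.mem_image_of_mem _ hσ))] at h1
    have h3 : ∀ q ∈ I, (∑ σ ∈ c.support with restr L Ω σ = q,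
        J (restr L Ω σ) * restr L Ω σ v * ((c σ : Ω) * σ a)) =
        J q * (∑ σ ∈ S q, (c σ : Ω) * σ a) * q v := by
      intro q _
      have h4 : ∑ σ ∈ S q, (c σ : Ω) * σ a = ∑ σ ∈ c.support with restr L Ω σ = q,
          (c σ : Ω) * σ a := by
        symm
        refine Finset.sum_subset (fun σ hσ => ?_) fun σ hσ hn => ?_
        · rw [Finset.mem_filter] at hσ
          exact (hS q σ).2 hσ.2
        · rw [Finset.mem_filter, not_and, Finsupp.mem_support_iff] at hn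
          have h5 : c σ = 0 := by
            by_contra h6
            exact hn h6 ((hS q σ).1 hσ)
          rw [h5, Int.cast_zero, zero_mul]
      rw [h4, mul_right_comm, Finset.mul_sum]
      refine Finset.sum_congr rfl fun σ hσ => ?_
      rw [Finset.mem_filter] at hσ
      rw [hσ.2]
    rw [Finset.sum_congr rfl h3] at h1
    rw [← h1]
    refine Finset.sum_subset (by rw [hI]; exact Finset.subset_union_right) fun q _ hq => ?_
    have h4 := hgood q hq a ha v hv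
    calc J q * (∑ σ ∈ S q, (c σ : Ω) * σ a) * q v =
        J q * (q v * ∑ σ ∈ S q, (c σ : Ω) * σ a) := by ring
      _ = 0 := by rw [h4, mul_zero]
  intro q hq
  exact (mul_eq_zero.1 (hrel q hq)).resolve_left (hJ0 q)

/-- a sum of pull-backs on a fibre is, up to torsion, rationally equivalent to zero -/
theorem rat_of_span {Base : IntermediateField L K → Prop}
    (hBase : ∀ M, Base M → ∀ c : (M →ₐ[ℂ] Ω) →₀ ℤ, ∃ N : ℕ, 0 < N ∧ N • c ∈ Rat M Ω)
    {f : (K →ₐ[ℂ] Ω) → ℚ}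
    (hf : f ∈ Submodule.span ℚ {e : (K →ₐ[ℂ] Ω) → ℚ | ∃ M, Base M ∧ PullbackFrom M e})
    (q : L →ₐ[ℂ] Ω) : ∃ (N : ℕ) (z : (K →ₐ[ℂ] Ω) →₀ ℤ), 0 < N ∧ z ∈ Rat K Ω ∧
      (∀ σ, restr L Ω σ = q → (z σ : ℚ) = N * f σ) ∧ ∀ σ, restr L Ω σ ≠ q → z σ = 0 := by
  classical
  obtain ⟨S, hS, -⟩ := exists_fib (K' := K) q
  induction hf using Submodule.span_induction with
  | mem e he =>
    obtain ⟨M, hM, he⟩ := he
    -- clear the denominators on the fibre
    obtain ⟨d, hd⟩ : ∃ d : ℕ, d = ∏ σ ∈ S, (e σ).den := ⟨_, rfl⟩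
    have hd0 : 0 < d := by
      rw [hd]
      exact Finset.prod_pos fun σ _ => (e σ).den_pos
    have hdiv : ∀ σ ∈ S, ∃ m : ℤ, (m : ℚ) = d * e σ := by
      intro σ hσ
      obtain ⟨k, hk⟩ : (e σ).den ∣ d := by
        rw [hd]
        exact Finset.dvd_prod_of_mem _ hσ
      refine ⟨k * (e σ).num, ?_⟩
      rw [hk]
      push_cast
      rw [← Rat.mul_den_eq_num (e σ)]
      ring
    choose s hs using fun τ : M →ₐ[ℂ] Ω => restr_surj (K' := K) τ
    let c0 : (M →ₐ[ℂ] Ω) →₀ ℤ := Finsupp.onFinset (S.image (restr M Ω))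
      (fun τ => if restr L Ω (s τ) = q then ⌊(d : ℚ) * e (s τ)⌋ else 0) (fun τ hτ => by
        rw [Finset.mem_image]
        refine ⟨s τ, (hS _).2 ?_, hs τ⟩
        by_contra h
        rw [if_neg h] at hτ
        exact hτ rfl)
    obtain ⟨N, hN, hrat⟩ := hBase M hM c0
    obtain ⟨c1, hc1, -⟩ := exists_lift_cycle (K' := K) (N • c0)
    have hrat1 : c1 ∈ Rat K Ω := rat_pull hrat c1 hc1
    have hres : ∀ σ : K →ₐ[ℂ] Ω, (∀ a ∈ M, s (restr M Ω σ) a = σ a) := by
      intro σ a ha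
      have h1 := congrArg (fun g : M →ₐ[ℂ] Ω => g ⟨a, ha⟩) (hs (restr M Ω σ))
      exact h1
    have hresL : ∀ σ : K →ₐ[ℂ] Ω, restr L Ω (s (restr M Ω σ)) = restr L Ω σ := by
      intro σ
      ext b
      rw [restr_apply, restr_apply]
      exact hres σ _ (by
        rw [IsScalarTower.algebraMap_apply L M K]
        exact (algebraMap L M b).2)
    refine ⟨N * d, c1, Nat.mul_pos hN hd0, hrat1, fun σ hσ => ?_, fun σ hσ => ?_⟩
    · rw [hc1, Finsupp.smul_apply]
      have h1 : c0 (restr M Ω σ) = ⌊(d : ℚ) * e σ⌋ := by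
        change (if restr L Ω (s (restr M Ω σ)) = q then ⌊(d : ℚ) * e (s (restr M Ω σ))⌋ else 0) = _
        rw [hresL, if_pos hσ, he _ σ (hres σ)]
      obtain ⟨m, hm⟩ := hdiv σ ((hS σ).2 hσ)
      rw [h1, ← hm, Int.floor_intCast, nsmul_eq_mul]
      push_cast
      rw [hm]
      ring
    · rw [hc1, Finsupp.smul_apply]
      have h1 : c0 (restr M Ω σ) = 0 := by
        change (if restr L Ω (s (restr M Ω σ)) = q then ⌊(d : ℚ) * e (s (restr M Ω σ))⌋ else 0) = _
        rw [hresL, if_neg hσ]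
      rw [h1, smul_zero]
  | zero => exact ⟨1, 0, one_pos, zero_mem _, fun σ _ => by simp, fun σ _ => rfl⟩
  | add f g _ _ hf hg =>
    obtain ⟨N1, z1, h1, h2, h3, h4⟩ := hf
    obtain ⟨N2, z2, k1, k2, k3, k4⟩ := hg
    refine ⟨N1 * N2, N2 • z1 + N1 • z2, Nat.mul_pos h1 k1,
      add_mem (AddSubgroup.nsmul_mem _ h2 _) (AddSubgroup.nsmul_mem _ k2 _), fun σ hσ => ?_,
      fun σ hσ => ?_⟩
    · rw [Finsupp.add_apply, Finsupp.smul_apply, Finsupp.smul_apply, nsmul_eq_mul, nsmul_eq_mul,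
        Pi.add_apply]
      push_cast
      rw [h3 σ hσ, k3 σ hσ]
      ring
    · rw [Finsupp.add_apply, Finsupp.smul_apply, Finsupp.smul_apply, h4 σ hσ, k4 σ hσ, smul_zero,
        smul_zero, add_zero]
  | smul r f _ hf =>
    obtain ⟨N1, z1, h1, h2, h3, h4⟩ := hf
    refine ⟨N1 * r.den, r.num • z1, Nat.mul_pos h1 r.den_pos, AddSubgroup.zsmul_mem _ h2 _,
      fun σ hσ => ?_, fun σ hσ => ?_⟩
    · rw [Finsupp.smul_apply, smul_eq_mul, Pi.smul_apply, smul_eq_mul]
      push_cast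
      rw [h3 σ hσ, ← Rat.mul_den_eq_num r]
      ring
    · rw [Finsupp.smul_apply, h4 σ hσ, smul_zero]

/-- **Cycles which are sums of pull-backs on all fibres.** -/
theorem rat_of_sums {Base : IntermediateField L K → Prop}
    (hBase : ∀ M, Base M → ∀ c : (M →ₐ[ℂ] Ω) →₀ ℤ, ∃ N : ℕ, 0 < N ∧ N • c ∈ Rat M Ω)
    {c : (K →ₐ[ℂ] Ω) →₀ ℤ} (hc : ∀ q : L →ₐ[ℂ] Ω, SumOfPullbacks Base c q) :
    ∃ N : ℕ, 0 < N ∧ N • c ∈ Rat K Ω := by
  classical
  choose f hf hcf using hc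
  choose N z hN hz h1 h2 using fun q => rat_of_span hBase (hf q) q
  obtain ⟨I, hI⟩ : ∃ I, I = c.support.image (restr L Ω) := ⟨_, rfl⟩
  refine ⟨∏ q ∈ I, N q, Finset.prod_pos fun q _ => hN q, ?_⟩
  have h3 : (∏ q ∈ I, N q) • c = ∑ q ∈ I, (∏ q' ∈ I.erase q, N q') • z q := by
    ext σ
    rw [Finsupp.smul_apply, Finsupp.finsetSum_apply]
    by_cases hσ : restr L Ω σ ∈ I
    · rw [Finset.sum_eq_single (restr L Ω σ)]
      · rw [Finsupp.smul_apply]
        have h4 := h1 (restr L Ω σ) σ rfl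
        rw [← hcf (restr L Ω σ) σ (restr_iff.1 rfl)] at h4
        have h5 : z (restr L Ω σ) σ = (N (restr L Ω σ) : ℤ) * c σ := by exact_mod_cast h4
        rw [h5, nsmul_eq_mul, nsmul_eq_mul, ← Finset.mul_prod_erase I N hσ]
        push_cast
        ring
      · intro q _ hq
        rw [Finsupp.smul_apply, h2 q σ (Ne.symm hq), smul_zero]
      · intro h
        exact absurd hσ h
    · have h4 : c σ = 0 := by
        by_contra h
        apply hσ
        rw [hI]
        exact Finset.mem_image_of_mem _ (Finsupp.mem_support_iff.2 h)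
      rw [h4, smul_zero]
      symm
      refine Finset.sum_eq_zero fun q hq => ?_
      rw [Finsupp.smul_apply, h2 q σ (fun h => hσ (by rw [h]; exact hq)), smul_zero]
  rw [h3]
  exact sum_mem fun q _ => AddSubgroup.nsmul_mem _ (hz q) _

end

end Pool.Agent.U981.DC
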